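import Pool.Agent.Lib.MP_7c08ba_nt.Glob.Emb
import Pool.Agent.Lib.MP_7c08ba_nt.Par.Conj
import Pool.Agent.Lib.MP_7c08ba_nt.Crys.Local

set_option autoImplicit false

/-!
Functions on the Galois group which become trivial over a period ring at an embedding: change of
the embedding.
-/

noncomputable section

namespace BKGlob

open TensorProduct Matrix MP_7c08ba.Crys

/-! ### Embeddings -/

section Auto

variable {l : ℕ} [Fact l.Prime] {Ω : Type*} [Field Ω] [IsAlgClosed Ω] [CharZero Ω]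
  [Algebra.IsAlgebraic ℚ Ω]

theorem exists_preimage (j j' : Ω →+* PadicAlgCl l) (x : Ω) : ∃ y : Ω, j y = j' x := by
  have hint : IsIntegral ℚ x := (Algebra.IsAlgebraic.isAlgebraic x).isIntegral
  have hm : (minpoly ℚ x).Monic := minpoly.monic hint
  have hsp : ((minpoly ℚ x).map (algebraMap ℚ Ω)).Splits := IsAlgClosed.splits _
  have h1 : (((minpoly ℚ x).map (algebraMap ℚ Ω)).map j).eval (j' x) = 0 := by
    have h2 : (j.comp (algebraMap ℚ Ω)) = j'.comp (algebraMap ℚ Ω) := Subsingleton.elim _ _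
    rw [Polynomial.map_map, h2, ← Polynomial.map_map, Polynomial.eval_map_apply,
      Polynomial.eval_map_algebraMap, minpoly.aeval, map_zero]
  rw [hsp.eq_prod_roots_of_monic (hm.map _), Polynomial.map_multiset_prod, Multiset.map_map,
    Polynomial.eval_multiset_prod, Multiset.map_map, Multiset.prod_eq_zero_iff,
    Multiset.mem_map] at h1
  obtain ⟨a, -, ha⟩ := h1
  refine ⟨a, ?_⟩
  have h3 : j' x - j a = 0 := by simpa using ha
  exact (sub_eq_zero.1 h3).symm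

/-- two embeddings differ by an automorphism -/
theorem exists_auto (j j' : Ω →+* PadicAlgCl l) : ∃ θ : Ω ≃+* Ω, ∀ x, j (θ x) = j' x := by
  choose f hf using exists_preimage j j'
  let g : Ω →+* Ω :=
    { toFun := f
      map_one' := by apply j.injective; rw [hf, map_one, map_one]
      map_mul' := fun a b => by apply j.injective; rw [hf, map_mul, map_mul, hf, hf]
      map_zero' := by apply j.injective; rw [hf, map_zero, map_zero]
      map_add' := fun a b => by apply j.injective; rw [hf, map_add, map_add, hf, hf] }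
  have hg : ∀ x, j (g x) = j' x := hf
  refine ⟨RingEquiv.ofBijective g ⟨g.injective, fun y => ?_⟩, hg⟩
  obtain ⟨x, hx⟩ := exists_preimage j' j y
  exact ⟨x, by apply j.injective; rw [hg, hx]⟩

end Auto

/-! ### Functions which become trivial -/

section Triv

variable {l : ℕ} [Fact l.Prime] {F Ω : Type} [Field F] [Field Ω] [Algebra F Ω]
variable {L : Type} [NormedField L] [NormedAlgebra ℚ_[l] L] {n : ℕ}
variable {B : Type} [CommRing B] [Algebra ℚ_[l] B]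

/-- the diagonal action of a matrix and an endomorphism of the period ring -/
def actM (A : Matrix (Fin n) (Fin n) L) (f : B →ₐ[ℚ_[l]] B) :
    (Fin n → L) ⊗[ℚ_[l]] B →ₗ[L] (Fin n → L) ⊗[ℚ_[l]] B :=
  AlgebraTensorModule.map A.mulVecLin f.toLinearMap

theorem actM_tmul (A : Matrix (Fin n) (Fin n) L) (f : B →ₐ[ℚ_[l]] B) (v : Fin n → L) (b : B) :
    actM A f (v ⊗ₜ b) = (A *ᵥ v) ⊗ₜ f b := rfl

/-- action of a matrix -/
def matM (B : Type) [CommRing B] [Algebra ℚ_[l] B] (A : Matrix (Fin n) (Fin n) L) :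
    (Fin n → L) ⊗[ℚ_[l]] B →ₗ[L] (Fin n → L) ⊗[ℚ_[l]] B :=
  actM A (AlgHom.id ℚ_[l] B)

theorem matM_tmul (A : Matrix (Fin n) (Fin n) L) (v : Fin n → L) (b : B) :
    matM (l := l) B A (v ⊗ₜ b) = (A *ᵥ v) ⊗ₜ b := rfl

theorem matM_actM (A A' : Matrix (Fin n) (Fin n) L) (f : B →ₐ[ℚ_[l]] B)
    (x : (Fin n → L) ⊗[ℚ_[l]] B) : matM B A (actM A' f x) = actM (A * A') f x := by
  induction x with
  | zero => simp
  | tmul v b => rw [actM_tmul, matM_tmul, actM_tmul, Matrix.mulVec_mulVec]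
  | add x y hx hy => rw [map_add, map_add, map_add, hx, hy]

theorem actM_matM (A A' : Matrix (Fin n) (Fin n) L) (f : B →ₐ[ℚ_[l]] B)
    (x : (Fin n → L) ⊗[ℚ_[l]] B) : actM A f (matM B A' x) = actM (A * A') f x := by
  induction x with
  | zero => simp
  | tmul v b => rw [matM_tmul, actM_tmul, actM_tmul, Matrix.mulVec_mulVec]
  | add x y hx hy => rw [map_add, map_add, map_add, hx, hy]

/-- the function `x` becomes trivial over `B` at the embedding `j`: there is `b` in `V ⊗ B` with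
`σ b - b = x σ` -/
def IsTriv (γ : (PadicAlgCl l ≃ₐ[ℚ_[l]] PadicAlgCl l) → B →ₐ[ℚ_[l]] B) (j : Ω →+* PadicAlgCl l)
    (ρ : (Ω ≃ₐ[F] Ω) →* GL (Fin n) L) (x : (Ω ≃ₐ[F] Ω) → Fin n → L) : Prop :=
  ∃ b : (Fin n → L) ⊗[ℚ_[l]] B, ∀ (σ : Ω ≃ₐ[F] Ω) (t : PadicAlgCl l ≃ₐ[ℚ_[l]] PadicAlgCl l),
    Cpt j σ t → actM (ρ σ : Matrix (Fin n) (Fin n) L) (γ t) b - b = x σ ⊗ₜ 1

variable (γ : (PadicAlgCl l ≃ₐ[ℚ_[l]] PadicAlgCl l) → B →ₐ[ℚ_[l]] B) (j : Ω →+* PadicAlgCl l)

theorem IsTriv.trans_aux {ρ : (Ω ≃ₐ[F] Ω) →* GL (Fin n) L} {x : (Ω ≃ₐ[F] Ω) → Fin n → L}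
    (hx : ∀ g h, x (g * h) = x g + (ρ g : Matrix (Fin n) (Fin n) L) *ᵥ (x h))
    (τ : Ω ≃ₐ[F] Ω) (h : IsTriv γ (j.comp (τ : Ω →+* Ω)) ρ x) : IsTriv γ j ρ x := by
  obtain ⟨b, hb⟩ := h
  have hx1 : x 1 = 0 := by
    have h1 := hx 1 1
    rw [mul_one, map_one, Units.val_one, Matrix.one_mulVec] at h1
    exact left_eq_add.1 h1
  refine ⟨matM B (ρ τ : Matrix (Fin n) (Fin n) L) b - x τ ⊗ₜ 1, fun σ t hσ => ?_⟩
  have h1 : Cpt (j.comp (τ : Ω →+* Ω)) (τ⁻¹ * σ * τ) t := by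
    intro y
    change j (τ ((τ⁻¹ * σ * τ) y)) = t (j (τ y))
    rw [← hσ (τ y), ← AlgEquiv.mul_apply, ← AlgEquiv.mul_apply]
    congr 2
    group
  have h2 := hb _ t h1
  have h3 := congrArg (matM B (ρ τ : Matrix (Fin n) (Fin n) L)) h2
  rw [map_sub, matM_actM, matM_tmul] at h3
  have h4 : (ρ τ : Matrix (Fin n) (Fin n) L) * (ρ (τ⁻¹ * σ * τ) : Matrix (Fin n) (Fin n) L) =
      (ρ σ : Matrix (Fin n) (Fin n) L) * (ρ τ : Matrix (Fin n) (Fin n) L) := by
    rw [← Units.val_mul, ← Units.val_mul, ← map_mul, ← map_mul]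
    congr 2
    group
  have h5 : (ρ τ : Matrix (Fin n) (Fin n) L) *ᵥ x (τ⁻¹ * σ * τ) =
      x σ + (ρ σ : Matrix (Fin n) (Fin n) L) *ᵥ x τ - x τ := by
    have e1 : x (τ * (τ⁻¹ * σ * τ)) = x τ + (ρ τ : Matrix (Fin n) (Fin n) L) *ᵥ
      x (τ⁻¹ * σ * τ) := hx _ _
    have e2 : τ * (τ⁻¹ * σ * τ) = σ * τ := by group
    rw [e2, hx] at e1
    rw [e1]
    abel
  rw [h4, h5] at h3
  rw [map_sub, actM_matM, actM_tmul, map_one]
  have h6 : (x σ + (ρ σ : Matrix (Fin n) (Fin n) L) *ᵥ x τ - x τ) ⊗ₜ[ℚ_[l]] (1 : B) =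
      x σ ⊗ₜ 1 + ((ρ σ : Matrix (Fin n) (Fin n) L) *ᵥ x τ) ⊗ₜ 1 - x τ ⊗ₜ 1 := by
    rw [TensorProduct.sub_tmul, TensorProduct.add_tmul]
  rw [h6] at h3
  rw [sub_sub_sub_comm, h3]
  abel

/-- The condition does not change when the embedding is composed with an element of the group. -/
theorem IsTriv.trans {ρ : (Ω ≃ₐ[F] Ω) →* GL (Fin n) L} {x : (Ω ≃ₐ[F] Ω) → Fin n → L}
    (hx : ∀ g h, x (g * h) = x g + (ρ g : Matrix (Fin n) (Fin n) L) *ᵥ (x h))
    (τ : Ω ≃ₐ[F] Ω) : IsTriv γ (j.comp (τ : Ω →+* Ω)) ρ x ↔ IsTriv γ j ρ x := by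
  refine ⟨IsTriv.trans_aux γ j hx τ, fun h => ?_⟩
  apply IsTriv.trans_aux γ _ hx τ⁻¹
  have e : (j.comp (τ : Ω →+* Ω)).comp ((τ⁻¹ : Ω ≃ₐ[F] Ω) : Ω →+* Ω) = j := by
    ext y
    change j (τ (τ⁻¹ y)) = j y
    rw [← AlgEquiv.mul_apply, mul_inv_cancel, AlgEquiv.one_apply]
  rw [e]
  exact h

end Triv

section Conj

variable {l : ℕ} [Fact l.Prime] {F : Type} [Field F]
variable {L : Type} [NormedField L] [NormedAlgebra ℚ_[l] L] {n : ℕ}
variable {B : Type} [CommRing B] [Algebra ℚ_[l] B]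
variable (γ : (PadicAlgCl l ≃ₐ[ℚ_[l]] PadicAlgCl l) → B →ₐ[ℚ_[l]] B)
  (j : AlgebraicClosure F →+* PadicAlgCl l)

open Pool.Agent.Lib.MP_7c08ba_nt in
/-- The condition at the embedding composed with an automorphism which induces an automorphism
of `F`. -/
theorem IsTriv.conj (c : AlgebraicClosure F ≃+* AlgebraicClosure F) (σ : F ≃+* F)
    (h : ∀ a, c (algebraMap F (AlgebraicClosure F) a) = algebraMap F (AlgebraicClosure F) (σ a))
    (hc : ∀ x, c (c x) = x)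
    (ρ : AbsGal F →* GL (Fin n) L) (x : AbsGal F → Fin n → L) :
    IsTriv γ (j.comp (c : AlgebraicClosure F →+* AlgebraicClosure F)) ρ x ↔
      IsTriv γ j (ρ.comp (BKPar.conj c σ h)) (fun g => x (BKPar.conj c σ h g)) := by
  have hcpt : ∀ (g : AbsGal F) (t : PadicAlgCl l ≃ₐ[ℚ_[l]] PadicAlgCl l),
      Cpt (j.comp (c : AlgebraicClosure F →+* AlgebraicClosure F)) g t ↔
        Cpt j (BKPar.conj c σ h g) t := by
    intro g t
    constructor
    · intro h1 y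
      have h2 := h1 (c.symm y)
      change j (c (g (c.symm y))) = t (j (c (c.symm y))) at h2
      rw [RingEquiv.apply_symm_apply] at h2
      rw [BKPar.Conj.conj_apply]
      exact h2
    · intro h1 y
      have h2 := h1 (c y)
      rw [BKPar.Conj.conj_apply, RingEquiv.symm_apply_apply] at h2
      exact h2
  have hcc : ∀ g : AbsGal F, BKPar.conj c σ h (BKPar.conj c σ h g) = g :=
    fun g => BKPar.Conj.conj_conj h hc g
  constructor
  · rintro ⟨b, hb⟩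
    refine ⟨b, fun g t hg => ?_⟩
    apply hb
    rw [hcpt, hcc]
    exact hg
  · rintro ⟨b, hb⟩
    refine ⟨b, fun g t hg => ?_⟩
    have h1 := hb (BKPar.conj c σ h g) t ((hcpt g t).1 hg)
    rw [MonoidHom.comp_apply] at h1
    simp only [hcc] at h1
    exact h1

end Conj

end BKGlob
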