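import Pool.Agent.Lib.MP_7c08ba_nt.Par.LocHom

set_option autoImplicit false

/-!
Embeddings of an algebraic closure of a number field into `PadicAlgCl l`: they have dense image,
and the elements of the decomposition group extend in a unique way to elements of the Galois
group of `ℚ_l`.
-/

noncomputable section

namespace BKGlob

open Polynomial

section Dense

variable {l : ℕ} [Fact l.Prime] {Ω : Type*} [Field Ω] [IsAlgClosed Ω] [CharZero Ω]

/-- approximation of an element of `PadicAlgCl l` with algebraic numbers -/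
theorem exists_close (j : Ω →+* PadicAlgCl l) (y : PadicAlgCl l) {ε : ℝ} (hε : 0 < ε) :
    ∃ a : Ω, ‖y - j a‖ < ε := by
  have hint : IsIntegral ℚ_[l] y := (Algebra.IsAlgebraic.isAlgebraic y).isIntegral
  set f : Polynomial ℚ_[l] := minpoly ℚ_[l] y with hf
  have hfm : f.Monic := minpoly.monic hint
  set d : ℕ := f.natDegree with hd
  have hd0 : 0 < d := minpoly.natDegree_pos hint
  have hM : 0 < (d : ℝ) * (1 + ‖y‖) ^ d := by positivity
  set δ : ℝ := ε ^ d / ((d : ℝ) * (1 + ‖y‖) ^ d) with hδ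
  have hδ0 : 0 < δ := by positivity
  have h1 : ∀ i : ℕ, ∃ c : ℚ, ‖f.coeff i - (c : ℚ_[l])‖ < δ := fun i =>
    Padic.rat_dense l (f.coeff i) hδ0
  choose c hc using h1
  set r : Polynomial Ω := ∑ i ∈ Finset.range d, C (c i : Ω) * X ^ i with hr
  have hrdeg : r.degree < (d : WithBot ℕ) := by
    rw [hr]
    refine (Polynomial.degree_lt_iff_coeff_zero _ _).2 fun m hm => ?_
    rw [finset_sum_coeff]
    refine Finset.sum_eq_zero fun i hi => ?_
    rw [coeff_C_mul_X_pow, if_neg (by have := Finset.mem_range.1 hi; omega)]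
  set g : Polynomial Ω := X ^ d + r with hg
  have hgm : g.Monic := monic_X_pow_add hrdeg
  have hgd : g.natDegree = d := by
    apply natDegree_eq_of_degree_eq_some
    rw [hg, degree_add_eq_left_of_degree_lt (by rwa [degree_X_pow]), degree_X_pow]
  -- the value at `y`
  have hval : (g.map j).eval y = -∑ i ∈ Finset.range d, algebraMap ℚ_[l] (PadicAlgCl l)
      (f.coeff i - (c i : ℚ_[l])) * y ^ i := by
    have h2 : aeval y f = 0 := minpoly.aeval _ _
    rw [hfm.as_sum, ← hd] at h2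
    rw [map_add, map_pow, aeval_X, map_sum] at h2
    rw [hg, hr, Polynomial.map_add, Polynomial.map_pow, map_X, Polynomial.map_sum, eval_add,
      eval_pow, eval_X, eval_finset_sum]
    have h3 : ∀ i ∈ Finset.range d, eval y (Polynomial.map j (C (c i : Ω) * X ^ i)) =
        algebraMap ℚ_[l] (PadicAlgCl l) (c i : ℚ_[l]) * y ^ i := by
      intro i _
      rw [Polynomial.map_mul, map_C, Polynomial.map_pow, map_X, eval_mul, eval_C, eval_pow, eval_X,
        map_ratCast, map_ratCast]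
    rw [Finset.sum_congr rfl h3]
    have h4 : ∀ i ∈ Finset.range d, (aeval y) (C (f.coeff i) * X ^ i) =
        algebraMap ℚ_[l] (PadicAlgCl l) (f.coeff i) * y ^ i := by
      intro i _
      rw [map_mul, map_pow, aeval_X, aeval_C]
    rw [Finset.sum_congr rfl h4] at h2
    have h5 : ∀ i ∈ Finset.range d, algebraMap ℚ_[l] (PadicAlgCl l) (f.coeff i - (c i : ℚ_[l])) *
        y ^ i = algebraMap ℚ_[l] (PadicAlgCl l) (f.coeff i) * y ^ i -
          algebraMap ℚ_[l] (PadicAlgCl l) (c i : ℚ_[l]) * y ^ i := by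
      intro i _
      rw [map_sub, sub_mul]
    rw [Finset.sum_congr rfl h5, Finset.sum_sub_distrib]
    linear_combination h2
  have hlt : ‖(g.map j).eval y‖ < ε ^ d := by
    rw [hval, norm_neg]
    have h2 : ∀ i ∈ Finset.range d, ‖algebraMap ℚ_[l] (PadicAlgCl l)
        (f.coeff i - (c i : ℚ_[l])) * y ^ i‖ < δ * (1 + ‖y‖) ^ d := by
      intro i hi
      rw [norm_mul, norm_pow, norm_algebraMap']
      have h3 : ‖y‖ ^ i ≤ (1 + ‖y‖) ^ d := by
        calc ‖y‖ ^ i ≤ (1 + ‖y‖) ^ i := by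
              gcongr
              linarith
          _ ≤ (1 + ‖y‖) ^ d := by
              apply pow_le_pow_right₀
              · linarith [norm_nonneg y]
              · exact (Finset.mem_range.1 hi).le
      have h4 := hc i
      calc ‖f.coeff i - (c i : ℚ_[l])‖ * ‖y‖ ^ i ≤ ‖f.coeff i - (c i : ℚ_[l])‖ * (1 + ‖y‖) ^ d := by
            gcongr
        _ < δ * (1 + ‖y‖) ^ d := by
            apply mul_lt_mul_of_pos_right h4
            positivity
    refine (norm_sum_le _ _).trans_lt ?_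
    refine (Finset.sum_lt_sum_of_nonempty ⟨0, Finset.mem_range.2 hd0⟩ h2).trans_le ?_
    rw [Finset.sum_const, Finset.card_range, nsmul_eq_mul, hδ]
    apply le_of_eq
    field_simp
  by_contra hcon
  push Not at hcon
  have hsp : g.Splits := IsAlgClosed.splits g
  have h6 : (g.map j).eval y = ((g.roots.map fun a => y - j a)).prod := by
    conv_lhs => rw [hsp.eq_prod_roots_of_monic hgm]
    rw [Polynomial.map_multiset_prod, Multiset.map_map, eval_multiset_prod, Multiset.map_map]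
    congr 1
    apply Multiset.map_congr rfl
    intro a _
    simp
  have hcard : Multiset.card g.roots = d := by
    rw [← hgd]
    exact hsp.natDegree_eq_card_roots.symm
  have h7 : ∀ s : Multiset Ω, ε ^ (Multiset.card s) ≤ ‖((s.map fun a => y - j a)).prod‖ := by
    intro s
    induction s using Multiset.induction_on with
    | empty => simp
    | cons a s ih =>
      rw [Multiset.card_cons, Multiset.map_cons, Multiset.prod_cons, norm_mul, pow_succ']
      exact mul_le_mul (hcon a) ih (by positivity) (norm_nonneg _)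
  have h8 := h7 g.roots
  rw [hcard, ← h6] at h8
  exact absurd hlt (not_lt.2 h8)

theorem denseRange_emb (j : Ω →+* PadicAlgCl l) : DenseRange j := by
  intro y
  rw [Metric.mem_closure_iff]
  intro ε hε
  obtain ⟨a, ha⟩ := exists_close j y hε
  exact ⟨j a, ⟨a, rfl⟩, by rwa [dist_eq_norm]⟩

theorem continuous_equiv (t : PadicAlgCl l ≃ₐ[ℚ_[l]] PadicAlgCl l) : Continuous t := by
  have : Isometry t := by
    apply AddMonoidHomClass.isometry_of_norm
    intro x
    exact BKGen.norm_equiv t x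
  exact this.continuous

/-- automorphisms are determined by their values on the image of the embedding -/
theorem equiv_ext (j : Ω →+* PadicAlgCl l) {t t' : PadicAlgCl l ≃ₐ[ℚ_[l]] PadicAlgCl l}
    (h : ∀ x, t (j x) = t' (j x)) : t = t' := by
  have h1 := (denseRange_emb j).equalizer (continuous_equiv t) (continuous_equiv t')
    (funext h)
  exact AlgEquiv.ext fun x => congrFun h1 x

end Dense

section Lift

variable {l : ℕ} [Fact l.Prime] {F Ω : Type*} [Field F] [CharZero F] [Field Ω] [Algebra F Ω]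
  [IsAlgClosure F Ω]

/-- `σ` and `t` are compatible with the embedding `j` -/
def Cpt (j : Ω →+* PadicAlgCl l) (σ : Ω ≃ₐ[F] Ω) (t : PadicAlgCl l ≃ₐ[ℚ_[l]] PadicAlgCl l) :
    Prop := ∀ x, j (σ x) = t (j x)

theorem Cpt.one (j : Ω →+* PadicAlgCl l) : Cpt j (1 : Ω ≃ₐ[F] Ω) 1 := fun _ => rfl

theorem Cpt.mul {j : Ω →+* PadicAlgCl l} {σ σ' : Ω ≃ₐ[F] Ω}
    {t t' : PadicAlgCl l ≃ₐ[ℚ_[l]] PadicAlgCl l} (h : Cpt j σ t) (h' : Cpt j σ' t') :
    Cpt j (σ * σ') (t * t') := by
  intro x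
  rw [AlgEquiv.mul_apply, AlgEquiv.mul_apply, h, h']

theorem Cpt.inv {j : Ω →+* PadicAlgCl l} {σ : Ω ≃ₐ[F] Ω}
    {t : PadicAlgCl l ≃ₐ[ℚ_[l]] PadicAlgCl l} (h : Cpt j σ t) : Cpt j σ⁻¹ t⁻¹ := by
  intro x
  apply t.injective
  rw [← h, ← AlgEquiv.mul_apply, ← AlgEquiv.mul_apply, mul_inv_cancel, mul_inv_cancel]
  rfl

theorem Cpt.mem_dec {j : Ω →+* PadicAlgCl l} {σ : Ω ≃ₐ[F] Ω}
    {t : PadicAlgCl l ≃ₐ[ℚ_[l]] PadicAlgCl l} (h : Cpt j σ t) : σ ∈ BKGen.Dec F Ω j := by
  intro x
  rw [h, BKGen.norm_equiv]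

/-- the set of compatible pairs is closed -/
theorem isClosed_cpt [Algebra.IsIntegral F Ω] (j : Ω →+* PadicAlgCl l) :
    IsClosed {q : (Ω ≃ₐ[F] Ω) × (PadicAlgCl l ≃ₐ[ℚ_[l]] PadicAlgCl l) | Cpt j q.1 q.2} := by
  have h1 : {q : (Ω ≃ₐ[F] Ω) × (PadicAlgCl l ≃ₐ[ℚ_[l]] PadicAlgCl l) | Cpt j q.1 q.2} =
      ⋂ x : Ω, {q | j (q.1 x) = q.2 (j x)} := by
    ext q
    simp only [Set.mem_iInter]
    rfl
  rw [h1]
  refine isClosed_iInter fun x => ?_
  rw [← isOpen_compl_iff, isOpen_iff_mem_nhds]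
  rintro ⟨σ, t⟩ hσ
  have h2 : IsOpen (MulAction.stabilizer (Ω ≃ₐ[F] Ω) x : Set (Ω ≃ₐ[F] Ω)) :=
    stabilizer_isOpen_of_isIntegral x
  have h3 : IsOpen (MulAction.stabilizer (PadicAlgCl l ≃ₐ[ℚ_[l]] PadicAlgCl l) (j x) :
      Set (PadicAlgCl l ≃ₐ[ℚ_[l]] PadicAlgCl l)) := stabilizer_isOpen_of_isIntegral (j x)
  have h4 := (h2.preimage (continuous_const_mul σ⁻¹)).prod (h3.preimage (continuous_const_mul t⁻¹))
  refine Filter.mem_of_superset (h4.mem_nhds ⟨?_, ?_⟩) ?_
  · change σ⁻¹ * σ ∈ MulAction.stabilizer (Ω ≃ₐ[F] Ω) x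
    rw [inv_mul_cancel]
    exact Subgroup.one_mem _
  · change t⁻¹ * t ∈ MulAction.stabilizer (PadicAlgCl l ≃ₐ[ℚ_[l]] PadicAlgCl l) (j x)
    rw [inv_mul_cancel]
    exact Subgroup.one_mem _
  · rintro ⟨σ', t'⟩ ⟨h5, h6⟩ h7
    apply hσ
    have h8 : σ' x = σ x := by
      have h9 : (σ⁻¹ * σ') x = x := h5
      have h10 := congrArg σ h9
      rwa [← AlgEquiv.mul_apply, mul_inv_cancel_left] at h10
    have h9 : t' (j x) = t (j x) := by
      have h9 : (t⁻¹ * t') (j x) = j x := h6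
      have h10 := congrArg t h9
      rwa [← AlgEquiv.mul_apply, mul_inv_cancel_left] at h10
    change j (σ' x) = t' (j x) at h7
    change j (σ x) = t (j x)
    rw [← h8, h7, h9]

/-- elements of the decomposition group extend -/
theorem exists_cpt (j : Ω →+* PadicAlgCl l) {σ : Ω ≃ₐ[F] Ω} (hσ : σ ∈ BKGen.Dec F Ω j) :
    ∃ t : PadicAlgCl l ≃ₐ[ℚ_[l]] PadicAlgCl l, Cpt j σ t := by
  have hac : IsAlgClosed Ω := IsAlgClosure.isAlgClosed F
  have hal : Algebra.IsAlgebraic F Ω := IsAlgClosure.isAlgebraic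
  have hint : Algebra.IsIntegral F Ω := Algebra.isAlgebraic_iff_isIntegral.mp hal
  have hchar : CharZero Ω := charZero_of_injective_algebraMap (algebraMap F Ω).injective
  have hgal : IsGalois F Ω := { }
  let H : Subgroup (Ω ≃ₐ[F] Ω) :=
    { carrier := {σ | ∃ t : PadicAlgCl l ≃ₐ[ℚ_[l]] PadicAlgCl l, Cpt j σ t}
      one_mem' := ⟨1, Cpt.one j⟩
      mul_mem' := by
        rintro a b ⟨t, ht⟩ ⟨t', ht'⟩
        exact ⟨t * t', ht.mul ht'⟩
      inv_mem' := by
        rintro a ⟨t, ht⟩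
        exact ⟨t⁻¹, ht.inv⟩ }
  have hHc : IsClosed (H : Set (Ω ≃ₐ[F] Ω)) := by
    have h1 := isClosedMap_fst_of_compactSpace (X := Ω ≃ₐ[F] Ω)
      (Y := PadicAlgCl l ≃ₐ[ℚ_[l]] PadicAlgCl l) _ (isClosed_cpt (F := F) j)
    convert h1 using 1
    ext σ
    constructor
    · rintro ⟨t, ht⟩
      exact ⟨(σ, t), ht, rfl⟩
    · rintro ⟨⟨σ', t⟩, ht, rfl⟩
      exact ⟨t, ht⟩
  have h1 : (IntermediateField.fixedField H).fixingSubgroup = H :=
    InfiniteGalois.fixingSubgroup_fixedField (⟨H, hHc⟩ : ClosedSubgroup (Ω ≃ₐ[F] Ω))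
  have h2 : σ ∈ (IntermediateField.fixedField H).fixingSubgroup := by
    rw [IntermediateField.mem_fixingSubgroup_iff]
    intro v hv
    rw [IntermediateField.mem_fixedField_iff] at hv
    have h3 : j v ∈ BKGen.comp l (j.comp (algebraMap F Ω)) := by
      have h4 : j v ∈ Set.range (algebraMap (BKGen.comp l (j.comp (algebraMap F Ω)))
          (PadicAlgCl l)) := by
        rw [InfiniteGalois.mem_range_algebraMap_iff_fixed]
        intro τ
        obtain ⟨s, hs⟩ := BKGen.exists_restrict j τ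
        have h5 : s ∈ H := ⟨τ.restrictScalars ℚ_[l], hs⟩
        rw [← hs, hv s h5]
      obtain ⟨y, hy⟩ := h4
      rw [← hy]
      exact y.2
    have h4 : j v ∈ BKGen.comp l (j.comp (algebraMap (⊥ : IntermediateField F Ω) Ω)) := by
      refine (?_ : BKGen.comp l (j.comp (algebraMap F Ω)) ≤ _) h3
      refine IntermediateField.adjoin_le_iff.mpr ?_
      rintro _ ⟨b, rfl⟩
      exact IntermediateField.subset_adjoin _ _ ⟨algebraMap F _ b, rfl⟩
    refine BKPar.LocHomAux.fixed_of_mem_comp ⊥ j h4 (fun x => hσ x) ?_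
    intro x hx
    obtain ⟨b, rfl⟩ := IntermediateField.mem_bot.1 hx
    exact σ.commutes b
  rw [h1] at h2
  exact h2

variable (F) in
/-- the map from the decomposition group to the Galois group of `ℚ_l` -/
def lift (j : Ω →+* PadicAlgCl l) :
    BKGen.Dec F Ω j →* (PadicAlgCl l ≃ₐ[ℚ_[l]] PadicAlgCl l) :=
  have hac : IsAlgClosed Ω := IsAlgClosure.isAlgClosed F
  have hchar : CharZero Ω := charZero_of_injective_algebraMap (algebraMap F Ω).injective
  { toFun := fun d => (exists_cpt j d.2).choose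
    map_one' := by
      apply equiv_ext j
      intro x
      exact ((exists_cpt j (1 : BKGen.Dec F Ω j).2).choose_spec x).symm
    map_mul' := by
      intro d d'
      apply equiv_ext j
      intro x
      have h1 := (exists_cpt j (d * d').2).choose_spec x
      have h2 := ((exists_cpt j d.2).choose_spec.mul (exists_cpt j d'.2).choose_spec) x
      rw [← h1, ← h2]
      rfl }

theorem lift_spec (j : Ω →+* PadicAlgCl l) (d : BKGen.Dec F Ω j) :
    Cpt j (d : Ω ≃ₐ[F] Ω) (lift F j d) := (exists_cpt j d.2).choose_spec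

theorem Cpt.unique {j : Ω →+* PadicAlgCl l} {d : BKGen.Dec F Ω j}
    {t : PadicAlgCl l ≃ₐ[ℚ_[l]] PadicAlgCl l} (h : Cpt j (d : Ω ≃ₐ[F] Ω) t) : t = lift F j d := by
  have hac : IsAlgClosed Ω := IsAlgClosure.isAlgClosed F
  have hchar : CharZero Ω := charZero_of_injective_algebraMap (algebraMap F Ω).injective
  apply equiv_ext j
  intro x
  rw [← h, ← lift_spec j d]

theorem continuous_lift (j : Ω →+* PadicAlgCl l) : Continuous (lift F j) := by
  have hal : Algebra.IsAlgebraic F Ω := IsAlgClosure.isAlgebraic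
  have hint : Algebra.IsIntegral F Ω := Algebra.isAlgebraic_iff_isIntegral.mp hal
  rw [continuous_iff_isClosed]
  intro C hC
  have h1 : IsClosed ({q : (BKGen.Dec F Ω j) × (PadicAlgCl l ≃ₐ[ℚ_[l]] PadicAlgCl l) |
      Cpt j (q.1 : Ω ≃ₐ[F] Ω) q.2} ∩ Prod.snd ⁻¹' C) := by
    apply IsClosed.inter
    · exact (isClosed_cpt (F := F) j).preimage
        ((continuous_subtype_val.comp continuous_fst).prodMk continuous_snd)
    · exact hC.preimage continuous_snd
  have h2 := isClosedMap_fst_of_compactSpace (X := BKGen.Dec F Ω j)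
      (Y := PadicAlgCl l ≃ₐ[ℚ_[l]] PadicAlgCl l) _ h1
  convert h2 using 1
  ext d
  constructor
  · intro hd
    exact ⟨(d, lift F j d), ⟨lift_spec j d, hd⟩, rfl⟩
  · rintro ⟨⟨d', t⟩, ⟨ht, htC⟩, rfl⟩
    have h3 : t = lift F j d' := Cpt.unique ht
    change lift F j d' ∈ C
    rw [← h3]
    exact htC

end Lift

end BKGlob
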