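import Pool.Agent.Lib.MP_7c08ba_nt.Par.Stmts
import Pool.Agent.Lib.MP_7c08ba_nt.Odd.Stmts
import Pool.Agent.Lib.MP_7c08ba_nt.Quad
import Pool.Agent.Lib.MP_7c08ba_nt.Gen.RigidTwo

set_option autoImplicit false

/-!
Imaginary quadratic fields in which `2` splits: reduction of the general hypothesis on the field
to the hypothesis of the parity theorem for `p = 2`.
-/

noncomputable section

namespace BKGlob

open BKGen NumberField Pool.Agent.Lib.MP_7c08ba_nt Module

/-- The hypotheses on the field: `F` is imaginary quadratic, the place `ι` has degree one, and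
`F(ζ)` is rigid at `ι`. -/
structure RigHyp (p : ℕ) [Fact p.Prime] (F : Type) [Field F] [NumberField F]
    (ζ : AlgebraicClosure F) (ι : AlgebraicClosure F →+* PadicAlgCl p) : Prop where
  hF : Module.finrank ℚ F = 2
  hreal : IsEmpty (F →+* ℝ)
  hζ : IsPrimitiveRoot ζ p
  hsplit : ∀ a : F, ι (algebraMap F _ a) ∈ (⊥ : IntermediateField ℚ_[p] (PadicAlgCl p))
  hrig : Rigid p (BKOdd.Kz ζ) (ι.comp (algebraMap (BKOdd.Kz ζ) (AlgebraicClosure F)))

section Quad

variable {F : Type} [Field F] [NumberField F]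

/-- a quadratic field contains the square root of an integer `D ≠ 0` and is generated by it -/
theorem exists_sqrt (hF : finrank ℚ F = 2) :
    ∃ (t : F) (D : ℚ), t ^ 2 = D ∧ ∀ r : ℚ, t ≠ r := by
  obtain ⟨x, hx⟩ : ∃ x : F, ∀ r : ℚ, x ≠ r := by
    by_contra hcon
    push Not at hcon
    have h1 : (⊤ : Submodule ℚ F) = Submodule.span ℚ {1} := by
      symm
      rw [eq_top_iff]
      intro x _
      obtain ⟨r, rfl⟩ := hcon x
      rw [Submodule.mem_span_singleton]
      exact ⟨r, by rw [Algebra.smul_def, mul_one]; rfl⟩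
    have h2 : finrank ℚ (⊤ : Submodule ℚ F) ≤ 1 := by
      rw [h1]
      have h3 := finrank_span_le_card (R := ℚ) ({1} : Set F)
      simpa using h3
    rw [finrank_top, hF] at h2
    omega
  have hint : IsIntegral ℚ x := (Algebra.IsAlgebraic.isAlgebraic x).isIntegral
  have hlin : ¬ LinearIndependent ℚ ![(1 : F), x, x ^ 2] := by
    intro h
    have := h.fintype_card_le_finrank
    rw [hF] at this
    simp at this
  rw [Fintype.not_linearIndependent_iff] at hlin
  obtain ⟨g, hg, i, hi⟩ := hlin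
  rw [Fin.sum_univ_three] at hg
  simp only [Matrix.cons_val_zero, Matrix.cons_val_one, Matrix.cons_val, Algebra.smul_def] at hg
  have hg' : ((g 0 : ℚ) : F) + (g 1 : ℚ) * x + (g 2 : ℚ) * x ^ 2 = 0 := by
    have e : ∀ r : ℚ, algebraMap ℚ F r = (r : F) := fun r => rfl
    rw [e, e, e] at hg
    linear_combination hg
  by_cases h2 : g 2 = 0
  · exfalso
    rw [h2, Rat.cast_zero, zero_mul, add_zero] at hg'
    by_cases h1 : g 1 = 0
    · rw [h1, Rat.cast_zero, zero_mul, add_zero, Rat.cast_eq_zero] at hg'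
      fin_cases i <;> simp_all
    · apply hx (-(g 0) / g 1)
      have h3 : ((g 1 : ℚ) : F) ≠ 0 := by exact_mod_cast h1
      push_cast
      field_simp
      linear_combination hg'
  · refine ⟨2 * (g 2 : ℚ) * x + (g 1 : ℚ), (g 1) ^ 2 - 4 * g 2 * g 0, ?_, ?_⟩
    · push_cast
      linear_combination 4 * ((g 2 : ℚ) : F) * hg'
    · intro r hr
      apply hx ((r - g 1) / (2 * g 2))
      have h3 : ((g 2 : ℚ) : F) ≠ 0 := by exact_mod_cast h2
      push_cast
      field_simp
      linear_combination hr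

/-- an imaginary quadratic field is `ℚ(√-q)` with `q` squarefree -/
theorem exists_q (hF : finrank ℚ F = 2) (hreal : IsEmpty (F →+* ℝ)) :
    ∃ (q : ℕ) (s : F), 0 < q ∧ Squarefree q ∧ s ^ 2 = -(q : F) := by
  obtain ⟨t, D, htD, ht⟩ := exists_sqrt hF
  have hD0 : D ≠ 0 := by
    rintro rfl
    apply ht 0
    rw [Rat.cast_zero] at htD ⊢
    exact pow_eq_zero_iff two_ne_zero |>.1 htD
  -- an integral multiple
  set N : ℤ := D.num * D.den with hN
  have hN0 : N ≠ 0 := mul_ne_zero (Rat.num_ne_zero.2 hD0) (by exact_mod_cast D.den_ne_zero)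
  have hden : ((D.den : ℕ) : F) ≠ 0 := by exact_mod_cast D.den_ne_zero
  have h1 : ((D.den : F) * t) ^ 2 = (N : F) := by
    rw [mul_pow, htD, hN]
    have h2 : (D : F) * (D.den : F) = (D.num : F) := by
      have h3 : D * D.den = D.num := Rat.mul_den_eq_num D
      have h4 := congrArg (fun r : ℚ => (r : F)) h3
      push_cast at h4
      exact h4
    push_cast
    linear_combination (D.den : F) * h2
  obtain ⟨a, b, hab, hsq⟩ := Nat.sq_mul_squarefree N.natAbs
  have hb0 : b ≠ 0 := by
    rintro rfl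
    rw [zero_pow two_ne_zero, zero_mul] at hab
    exact hN0 (Int.natAbs_eq_zero.1 hab.symm)
  have ha0 : a ≠ 0 := hsq.ne_zero
  have hb0' : (b : F) ≠ 0 := by exact_mod_cast hb0
  refine ⟨a, (D.den : F) * t / b, Nat.pos_of_ne_zero ha0, hsq, ?_⟩
  rw [div_pow, h1, div_eq_iff (pow_ne_zero 2 hb0')]
  -- the sign
  have hneg : N = -(b ^ 2 * a : ℕ) := by
    rcases Int.natAbs_eq N with h | h
    · exfalso
      rw [← hab] at h
      -- a real embedding
      have hNpos : (0 : ℝ) ≤ (N : ℝ) := by rw [h]; positivity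
      set u : F := (D.den : F) * t with hu
      have hu2 : u ^ 2 = (N : F) := h1
      obtain ⟨φ⟩ : Nonempty (F →+* ℂ) := inferInstance
      have hφu : (φ u) ^ 2 = ((Real.sqrt N : ℝ) : ℂ) ^ 2 := by
        rw [← map_pow, hu2, map_intCast, ← Complex.ofReal_pow, Real.sq_sqrt hNpos]
        simp
      have hur : starRingEnd ℂ (φ u) = φ u := by
        rcases sq_eq_sq_iff_eq_or_eq_neg.1 hφu with h2 | h2
        · rw [h2, Complex.conj_ofReal]
        · rw [h2, map_neg, Complex.conj_ofReal]
      have hφr : ComplexEmbedding.IsReal φ := by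
        rw [ComplexEmbedding.isReal_iff]
        ext z
        have hli : LinearIndependent ℚ ![(1 : F), u] := by
          rw [LinearIndependent.pair_iff]
          intro x y hxy
          rw [Algebra.smul_def, Algebra.smul_def, mul_one] at hxy
          have e : ∀ r : ℚ, algebraMap ℚ F r = (r : F) := fun r => rfl
          rw [e, e] at hxy
          have hy : y = 0 := by
            by_contra hy
            apply ht (-x / (y * D.den))
            have h3 : ((y : ℚ) : F) ≠ 0 := by exact_mod_cast hy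
            push_cast
            field_simp
            rw [hu] at hxy
            linear_combination hxy
          rw [hy, Rat.cast_zero, zero_mul, add_zero, Rat.cast_eq_zero] at hxy
          exact ⟨hxy, hy⟩
        let B := basisOfLinearIndependentOfCardEqFinrank hli (by simp [hF])
        have hz : z = ((B.repr z 0 : ℚ) : F) + (B.repr z 1 : ℚ) * u := by
          conv_lhs => rw [← B.sum_repr z]
          rw [Fin.sum_univ_two, Algebra.smul_def, Algebra.smul_def]
          have e0 : B 0 = 1 := by simp [B]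
          have e1 : B 1 = u := by simp [B]
          rw [e0, e1, mul_one]
          rfl
        rw [ComplexEmbedding.conjugate_coe_eq, hz]
        simp only [map_add, map_mul, map_ratCast, hur]
      exact hreal.false hφr.embedding
    · rw [← hab] at h
      exact h
  rw [hneg]
  push_cast
  ring

end Quad

section Rig

variable {F : Type} [Field F]

theorem powAway_conj {K : Type} [Field K] {p : ℕ} (σ : K ≃+* K) {a : K} (h : PowAway p a) :
    PowAway p (σ a) := by
  intro l _ hl j
  obtain ⟨b, hb⟩ := h l hl (j.comp (σ : K →+* K))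
  exact ⟨σ b, hb⟩

/-- rigidity at the conjugate place -/
theorem rigid_conj {K : Type} [Field K] {p : ℕ} [Fact p.Prime] {j : K →+* PadicAlgCl p}
    (σ : K ≃+* K) (h : Rigid p K j) : Rigid p K (j.comp (σ : K →+* K)) := by
  intro a ha h1 h2
  have hcomp : comp p (j.comp (σ : K →+* K)) = comp p j := by
    unfold comp
    congr 1
    ext x
    constructor
    · rintro ⟨y, rfl⟩
      exact ⟨σ y, rfl⟩
    · rintro ⟨y, rfl⟩
      exact ⟨σ.symm y, by simp⟩
  obtain ⟨β, hβ, hβ'⟩ := h2
  rw [hcomp] at hβ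
  obtain ⟨b, hb⟩ := h (σ a) ((map_ne_zero σ).2 ha) (powAway_conj σ h1) ⟨β, hβ, hβ'⟩
  refine ⟨σ.symm b, ?_⟩
  apply σ.injective
  rw [map_pow, RingEquiv.apply_symm_apply, hb]

/-- rigidity is invariant under isomorphisms -/
theorem rigid_equiv {K K' : Type} [Field K] [Field K'] {p : ℕ} [Fact p.Prime] (e : K ≃+* K')
    {j : K' →+* PadicAlgCl p} (h : Rigid p K' j) : Rigid p K (j.comp (e : K →+* K')) := by
  intro a ha h1 h2
  have hcomp : comp p (j.comp (e : K →+* K')) = comp p j := by
    unfold comp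
    congr 1
    ext x
    constructor
    · rintro ⟨y, rfl⟩
      exact ⟨e y, rfl⟩
    · rintro ⟨y, rfl⟩
      exact ⟨e.symm y, by simp⟩
  obtain ⟨β, hβ, hβ'⟩ := h2
  rw [hcomp] at hβ
  have h3 : PowAway p (e a) := by
    intro l _ hl i
    obtain ⟨b, hb⟩ := h1 l hl (i.comp (e : K →+* K'))
    exact ⟨e b, hb⟩
  obtain ⟨b, hb⟩ := h (e a) ((map_ne_zero e).2 ha) h3 ⟨β, hβ, hβ'⟩
  refine ⟨e.symm b, ?_⟩
  apply e.injective
  rw [map_pow, RingEquiv.apply_symm_apply, hb]

variable [NumberField F]

/-- for `p = 2` the field generated by the root of unity is `F` -/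
theorem rigid_two {ζ : AlgebraicClosure F} {ι : AlgebraicClosure F →+* PadicAlgCl 2}
    (h : RigHyp 2 F ζ ι) : Rigid 2 F (ι.comp (algebraMap F (AlgebraicClosure F))) := by
  have hζ : ζ = -1 := h.hζ.eq_neg_one_of_two_right
  have hbot : BKOdd.Kz ζ = ⊥ := by
    rw [BKOdd.Kz, IntermediateField.adjoin_simple_eq_bot_iff, hζ]
    exact neg_mem (one_mem _)
  let e : F ≃+* BKOdd.Kz ζ :=
    ((IntermediateField.botEquiv F (AlgebraicClosure F)).symm.trans
      (IntermediateField.equivOfEq hbot.symm)).toRingEquiv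
  have he : ∀ a : F, ((e a : BKOdd.Kz ζ) : AlgebraicClosure F) =
      algebraMap F (AlgebraicClosure F) a := by
    intro a
    rfl
  have h1 := rigid_equiv e h.hrig
  have h2 : (ι.comp (algebraMap (BKOdd.Kz ζ) (AlgebraicClosure F))).comp
      (e : F →+* BKOdd.Kz ζ) = ι.comp (algebraMap F (AlgebraicClosure F)) := by
    ext a
    change ι ((e a : BKOdd.Kz ζ) : AlgebraicClosure F) = ι (algebraMap F (AlgebraicClosure F) a)
    rw [he]
  rw [h2] at h1
  exact h1

/-- `q ≡ 7 (mod 8)` -/
theorem mod_eight {q : ℕ} (hsq : Squarefree q) {x : ℚ_[2]} (hx : x ^ 2 = -(q : ℚ_[2])) :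
    q % 8 = 7 := by
  have h4 : ¬ (4 : ℤ) ∣ (-(q : ℤ)) := by
    rw [dvd_neg]
    intro h
    have h1 : 2 * 2 ∣ q := by
      have : (4 : ℕ) ∣ q := by exact_mod_cast h
      simpa using this
    have h2 := hsq 2 h1
    rw [Nat.isUnit_iff] at h2
    omega
  have h5 : IsSquare (((-(q : ℤ) : ℤ)) : ℚ_[2]) := ⟨x, by push_cast; rw [← hx, sq]⟩
  have h6 := RTwo.mod_eight_int h4 h5
  omega

theorem fieldHyp {ζ : AlgebraicClosure F} {ι : AlgebraicClosure F →+* PadicAlgCl 2}
    (h : RigHyp 2 F ζ ι) (σ : F ≃+* F) (hσ : ∃ a, σ a ≠ a) :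
    ∃ (q : ℕ) (s : F), BKPar.FieldHyp q F s ∧ σ s = -s := by
  obtain ⟨q, s, hq0, hsq, hs⟩ := exists_q h.hF h.hreal
  have hσs : σ s = -s := by
    have h1 : (σ s) ^ 2 = s ^ 2 := by
      rw [← map_pow, hs, map_neg, map_natCast]
    rcases sq_eq_sq_iff_eq_or_eq_neg.1 h1 with h2 | h2
    · exfalso
      obtain ⟨a, ha⟩ := hσ
      apply ha
      obtain ⟨x, y, rfl⟩ := exists_coords hq0 h.hF hs a
      simp only [map_add, map_mul, map_ratCast, h2]
    · exact h2
  refine ⟨q, s, ⟨hq0, hsq, ?_, h.hF, hs, fun j => ?_⟩, hσs⟩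
  · obtain ⟨x, hx⟩ := IntermediateField.mem_bot.1 (h.hsplit s)
    apply mod_eight hsq (x := x)
    apply (algebraMap ℚ_[2] (PadicAlgCl 2)).injective
    rw [map_pow, hx, ← map_pow, ← map_pow, hs, map_neg, map_neg, map_neg, map_natCast,
      map_natCast, map_natCast]
  · have h1 := rigid_two h
    have h2 : (j s) ^ 2 = (ι (algebraMap F (AlgebraicClosure F) s)) ^ 2 := by
      rw [← map_pow, ← map_pow, ← map_pow, hs, map_neg, map_neg, map_neg, map_natCast,
        map_natCast, map_natCast]
    rcases sq_eq_sq_iff_eq_or_eq_neg.1 h2 with h3 | h3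
    · have h4 : j = ι.comp (algebraMap F (AlgebraicClosure F)) := by
        ext a
        obtain ⟨x, y, rfl⟩ := exists_coords hq0 h.hF hs a
        rw [RingHom.comp_apply]
        simp only [map_add, map_mul, map_ratCast, h3]
      rw [h4]
      exact h1
    · have h4 : j = (ι.comp (algebraMap F (AlgebraicClosure F))).comp (σ : F →+* F) := by
        ext a
        obtain ⟨x, y, rfl⟩ := exists_coords hq0 h.hF hs a
        change _ = ι (algebraMap F (AlgebraicClosure F) (σ (x + y * s)))
        simp only [map_add, map_mul, map_ratCast, h3, hσs, map_neg]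
      rw [h4]
      exact rigid_conj σ h1

end Rig

end BKGlob
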