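import Pool.Agent.Lib.MP_7c08ba_nt.Glob.H1f
import Pool.Agent.Lib.MP_7c08ba_nt.Glob.Field
import Pool.Agent.Lib.MP_7c08ba_nt.Odd.DRTrans
import Pool.Agent.Lib.MP_7c08ba_nt.Odd.CycL
import Pool.Agent.Lib.MP_7c08ba_nt.Crys.HodgeP

set_option autoImplicit false

/-!
The parity theorem for `H¹_f(F, V)`, `p = 2`.
-/

noncomputable section

namespace BKGlob

open BKGen BKGen.Genus NumberField Pool.Agent.Lib.MP_7c08ba_nt Matrix MP_7c08ba.Crys TensorProduct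

section Dec

variable {F : Type} [Field F] [NumberField F]

/-- the decomposition group as a group of pairs -/
def decPD (ι : AlgebraicClosure F →+* PadicAlgCl 2) : BKPar.D F ι →* BKOdd.PD ι where
  toFun d := ⟨((d : AbsGal F), lift F ι d), lift_spec ι d⟩
  map_one' := by
    apply Subtype.ext
    exact Prod.ext rfl (map_one (lift F ι))
  map_mul' a b := by
    apply Subtype.ext
    exact Prod.ext rfl (map_mul (lift F ι) a b)

theorem decPD_surjective (ι : AlgebraicClosure F →+* PadicAlgCl 2) :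
    Function.Surjective (decPD ι) := by
  rintro ⟨⟨g, t⟩, h⟩
  have h1 : Cpt ι g t := h
  refine ⟨⟨g, h1.mem_dec⟩, ?_⟩
  apply Subtype.ext
  refine Prod.ext rfl ?_
  exact (Cpt.unique (d := ⟨g, h1.mem_dec⟩) h1).symm

variable {L : Type} [NormedField L] [NormedAlgebra ℚ_[2] L] {n : ℕ}

theorem isDR_dec (ι : AlgebraicClosure F →+* PadicAlgCl 2) (ρ : AbsGal F →* GL (Fin n) L)
    (h : BKOdd.DeRhamAt ι ρ) : IsDR (lift F ι) (ρ.comp (BKPar.D F ι).subtype) := by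
  obtain ⟨X, hX⟩ := h
  refine ⟨X, fun d => ?_⟩
  have h1 := hX (d : AbsGal F) (lift F ι d) (lift_spec ι d)
  conv_rhs => rw [← h1]
  rfl

theorem DBat_dec (ι : AlgebraicClosure F →+* PadicAlgCl 2) (ρ : AbsGal F →* GL (Fin n) L) :
    BKOdd.DBat galD ⊤ ι ρ = DdR (lift F ι) (ρ.comp (BKPar.D F ι).subtype) := by
  rw [BKOdd.DBat_eq]
  exact (BKOdd.DB_comp_surj (decPD ι) (decPD_surjective ι)
    (BKOdd.lin (ρ.comp (BKOdd.toF ι))) (fun d => galD (BKOdd.toQ ι d))).symm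

/-- `D_dR / Fil⁰` -/
theorem tdim_dec (ι : AlgebraicClosure F →+* PadicAlgCl 2) (ρ : AbsGal F →* GL (Fin n) L) :
    BKOdd.tdim ι ρ = Cardinal.toNat (rkdR (lift F ι) (ρ.comp (BKPar.D F ι).subtype)) := by
  unfold BKOdd.tdim BKOdd.codimIn rkdR rankQ Module.finrank
  rw [DBat_dec, BKOdd.Fil0V_eq]

/-- surjections onto the preimage of the whole group -/
theorem surj_top {G₁ G₂ G₃ : Type} [Group G₁] [Group G₂] [Group G₃] (f : G₁ →* G₂)
    (hf : Function.Surjective f) (g : G₂ →* G₃) :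
    Function.Surjective (f.codRestrict ((⊤ : Subgroup G₃).comap g) fun _ => Subgroup.mem_top _) := by
  rintro ⟨y, hy⟩
  obtain ⟨x, rfl⟩ := hf y
  exact ⟨x, rfl⟩

theorem pure_dec (ι : AlgebraicClosure F →+* PadicAlgCl 2) (ρ : AbsGal F →* GL (Fin n) L)
    (h : BKOdd.FrobAt ⊤ ι ρ) : IsPure (lift F ι) (ρ.comp (BKPar.D F ι).subtype) := by
  rw [BKOdd.frobAt_iff] at h
  exact BKOdd.phSub_transport _ (surj_top (decPD ι) (decPD_surjective ι) (BKOdd.toF ι)) _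
    (lift F ι) (fun _ => rfl) _
    (rp (ρ.comp (BKPar.D F ι).subtype)) LinearMap.id LinearMap.id (fun _ => rfl)
    (fun _ => rfl) (fun _ _ => rfl) h

section Conj

variable {s : F} (ι : AlgebraicClosure F →+* PadicAlgCl 2)
    {c : AlgebraicClosure F ≃+* AlgebraicClosure F} {σ : F ≃+* F} (hcs : BKOdd.ConjHyp c σ)
    (hcs' : BKPar.ConjHyp s c σ)

theorem mulVec_cj (ρ : AbsGal F →* GL (Fin n) L) (b : GL (Fin n) L) (g : BKPar.D F ι)
    (v : Fin n → L) : rp (BKND.Pol.cj b (rhoT ι hcs' ρ)) g (Matrix.mulVecLin b.val v) =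
      Matrix.mulVecLin b.val (BKOdd.lin (ρ.comp (BKOdd.toF
        (ι.comp (c : AlgebraicClosure F →+* AlgebraicClosure F))))
        (((BKOdd.conjPD' ι c σ hcs).comp (decPD ι)) g) v) := by
  change (BKND.Pol.cj b (rhoT ι hcs' ρ) g : Matrix (Fin n) (Fin n) L) *ᵥ
    ((b : Matrix (Fin n) (Fin n) L) *ᵥ v) = _
  rw [BKND.Pol.cj_mulVec, BKND.Pol.inv_mul_mulVec]
  rfl

include hcs in
theorem pure_cj (ρ : AbsGal F →* GL (Fin n) L) (b : GL (Fin n) L)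
    (h : BKOdd.FrobAt ⊤ (ι.comp (c : AlgebraicClosure F →+* AlgebraicClosure F)) ρ) :
    IsPure (lift F ι) (BKND.Pol.cj b (rhoT ι hcs' ρ)) := by
  rw [BKOdd.frobAt_iff] at h
  refine BKOdd.phSub_transport _ (surj_top ((BKOdd.conjPD' ι c σ hcs).comp (decPD ι))
    ((BKOdd.conjPD'_surjective ι c σ hcs).comp (decPD_surjective ι))
    (BKOdd.toF (ι.comp (c : AlgebraicClosure F →+* AlgebraicClosure F)))) _ (lift F ι)
    (fun _ => rfl) _
    (rp (BKND.Pol.cj b (rhoT ι hcs' ρ)))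
    (Matrix.mulVecLin b.val) (Matrix.mulVecLin (b⁻¹).val)
    (BKOdd.mulVecLin_inv b) (BKOdd.mulVecLin_inv' b) ?_ h
  intro g v
  exact mulVec_cj ι hcs hcs' ρ b g v

include hcs in
/-- `D_dR / Fil⁰` at the conjugate place -/
theorem tdim_cj (ρ : AbsGal F →* GL (Fin n) L) (b : GL (Fin n) L) :
    BKOdd.tdim (ι.comp (c : AlgebraicClosure F →+* AlgebraicClosure F)) ρ =
      Cardinal.toNat (rkdR (lift F ι) (BKND.Pol.cj b (rhoT ι hcs' ρ))) := by
  have h1 : (BKOdd.DBat galD ⊤ (ι.comp (c : AlgebraicClosure F →+* AlgebraicClosure F)) ρ).map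
      (BKOdd.twE (BdR 2) (Matrix.mulVecLin b.val) (Matrix.mulVecLin (b⁻¹).val)
      (BKOdd.mulVecLin_inv b) (BKOdd.mulVecLin_inv' b)).toLinearMap =
      DdR (lift F ι) (BKND.Pol.cj b (rhoT ι hcs' ρ)) := by
    rw [BKOdd.DBat_eq, ← BKOdd.DB_comp_surj ((BKOdd.conjPD' ι c σ hcs).comp (decPD ι))
      ((BKOdd.conjPD'_surjective ι c σ hcs).comp (decPD_surjective ι))]
    refine BKOdd.DB_map_tw _ (rp (BKND.Pol.cj b (rhoT ι hcs' ρ))) _ _ _ _ _ ?_
    intro g v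
    exact mulVec_cj ι hcs hcs' ρ b g v
  have h2 : BKOdd.tdim (ι.comp (c : AlgebraicClosure F →+* AlgebraicClosure F)) ρ =
      BKOdd.codimIn (DdR (lift F ι) (BKND.Pol.cj b (rhoT ι hcs' ρ)))
        (FilV L (Fin n → L) (DpS 2)) := by
    unfold BKOdd.tdim
    rw [← BKOdd.codimIn_map (BKOdd.twE (BdR 2) (Matrix.mulVecLin b.val)
      (Matrix.mulVecLin (b⁻¹).val) (BKOdd.mulVecLin_inv b) (BKOdd.mulVecLin_inv' b)), h1,
      BKOdd.Fil0V_map_tw, BKOdd.Fil0V_eq]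
  rw [h2]
  rfl

end Conj

end Dec

section Main

variable {F : Type} [Field F] [NumberField F]
variable {L : Type} [NormedField L] [NormedAlgebra ℚ_[2] L] [FiniteDimensional ℚ_[2] L] {n : ℕ}

/-- **Parity of `H¹_f(F, V)`, `p = 2`.** -/
theorem parity_final_two {q : ℕ} {s : F} (hq : BKPar.FieldHyp q F s)
    (ι : AlgebraicClosure F →+* PadicAlgCl 2)
    (c : AlgebraicClosure F ≃+* AlgebraicClosure F) (σ : F ≃+* F) (hcs : BKOdd.ConjHyp c σ)
    (hcs' : BKPar.ConjHyp s c σ)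
    (ρ : AbsGal F →* GL (Fin n) L) (hρ : Continuous ρ)
    (hres : BKPar.ResUni ρ) (hun : BKPar.UnramifiedAwayTwo ρ)
    (b : GL (Fin n) L) (hB : (b : Matrix (Fin n) (Fin n) L)ᵀ = b)
    (hpair : ∀ g, (ρ g : Matrix (Fin n) (Fin n) L)ᵀ * (b : Matrix (Fin n) (Fin n) L) *
      (ρ (BKPar.conj c σ hcs.h g) : Matrix (Fin n) (Fin n) L) =
        BKOdd.chL (BKOdd.cyc 2 F) L g • (b : Matrix (Fin n) (Fin n) L))
    (hDR : BKOdd.DeRhamAt ι ρ) (hF : BKOdd.FrobAt ⊤ ι ρ)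
    (hF' : BKOdd.FrobAt ⊤ (ι.comp (c : AlgebraicClosure F →+* AlgebraicClosure F)) ρ) :
    FiniteDimensional L (BKOdd.H1f 2 ρ) ∧
      Module.finrank L (BKOdd.H1f 2 ρ) % 2 = BKOdd.tdim ι ρ % 2 ∧
      Module.finrank L (BKOdd.H1f 2 ρ) ≤ BKOdd.tdim ι ρ ∧
      BKOdd.tdim ι ρ + BKOdd.tdim (ι.comp (c : AlgebraicClosure F →+* AlgebraicClosure F)) ρ =
        n := by
  have hAdm := BKPar.stAdm
  have hs0 : s ≠ 0 := s_ne_zero hq
  obtain ⟨hτc, hτ2, hτR, hτχ, hi⟩ := BKPar.stConj hAdm F s c σ hcs' hs0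
  have hpair' : ∀ g, (ρ g : Matrix (Fin n) (Fin n) L)ᵀ * (b : Matrix (Fin n) (Fin n) L) *
      (ρ (BKPar.conj c σ hcs'.h g) : Matrix (Fin n) (Fin n) L) =
        BKPar.chi (BKPar.cyc F) L g • (b : Matrix (Fin n) (Fin n) L) := hpair
  have hσc : Continuous (ρ.comp (BKPar.D F ι).subtype) := hρ.comp continuous_subtype_val
  have hσc' : Continuous (BKND.Pol.cj b (rhoT ι hcs' ρ)) :=
    BKND.Pol.cj_continuous b ((hρ.comp hτc).comp continuous_subtype_val)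
  have hdual := dual_cj ι c σ hcs' ρ b hpair'
  have hP := pure_dec ι ρ hF
  have hP' := pure_cj ι hcs hcs' ρ b hF'
  have hχ : ∀ g, BKOdd.chL (cycD F ι) L g = algebraMap ℚ_[2] L (chiQ (lift F ι g)) := by
    intro g
    have h1 := (BKOdd.stCycL 2).2.2 F ι (g : AbsGal F) (lift F ι g) (lift_spec ι g)
    have h2 : BKOdd.chL (cycD F ι) L g = algebraMap ℚ_[2] L
      (((BKOdd.cyc 2 F (g : AbsGal F) : ℤ_[2]ˣ) : ℤ_[2]) : ℚ_[2]) := rfl
    rw [h2, h1]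
    rfl
  have hχc : Continuous (BKOdd.chL (cycD F ι) L) :=
    BKOdd.continuous_chL' (cycD F ι)
      ((BKPar.stCycR hAdm (BKPar.stSq hAdm) F).1.comp continuous_subtype_val) L
  obtain ⟨r, r', hH, hr1, hr2, hr1', hr2'⟩ := hodgePair (lift F ι) (continuous_lift ι)
    (ρ.comp (BKPar.D F ι).subtype) (BKND.Pol.cj b (rhoT ι hcs' ρ)) hσc hσc'
    (BKOdd.chL (cycD F ι) L) hχ hχc hdual (isDR_dec ι ρ hDR) hP hP'
  have hH' : BKOdd.HodgePair (BKOdd.chL (cycD F ι) L) (BKGlob.Zf (lift F ι))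
      (ρ.comp (BKPar.D F ι).subtype) (BKND.Pol.cj b (rhoT ι hcs' ρ)) r r' := hH
  have hinv : ∀ v : Fin n → L, (∀ g : BKPar.D F ι,
      ((ρ.comp (BKPar.D F ι).subtype) g : Matrix (Fin n) (Fin n) L) *ᵥ v = v) → v = 0 :=
    fun v hv => BKOdd.eq_zero_of_phSub (lift F ι) (rp (ρ.comp (BKPar.D F ι).subtype)) hP v hv
  have hinv' : ∀ v : Fin n → L, (∀ g : BKPar.D F ι,
      (BKND.Pol.cj b (rhoT ι hcs' ρ) g : Matrix (Fin n) (Fin n) L) *ᵥ v = v) → v = 0 :=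
    fun v hv => BKOdd.eq_zero_of_phSub (lift F ι) (rp (BKND.Pol.cj b (rhoT ι hcs' ρ))) hP' v hv
  have hu : BKPar.ResUni (ρ.comp (BKPar.D F ι).subtype) := fun g i => hres g i
  have hu' : BKPar.ResUni (BKND.Pol.cj b (rhoT ι hcs' ρ)) :=
    BKND.Pol.cj_resUni b fun g i => hres _ i
  obtain ⟨z, hz⟩ := line_two hq ι c σ hcs' ρ hρ hres hun b hB hpair'
  obtain ⟨h1, h2, h3, -⟩ := local_two hq ι _ _ hσc hσc' hu hu' hdual hinv hinv' z hz hH'
  have hdual' : ∀ g, (BKND.Pol.cj b (rhoT ι hcs' ρ) g : Matrix (Fin n) (Fin n) L)ᵀ *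
      ((ρ.comp (BKPar.D F ι).subtype) g : Matrix (Fin n) (Fin n) L) =
      BKOdd.chL (cycD F ι) L g • (1 : Matrix (Fin n) (Fin n) L) := by
    intro g
    have h1 := congrArg Matrix.transpose (hdual g)
    rwa [Matrix.transpose_mul, Matrix.transpose_transpose, Matrix.transpose_smul,
      Matrix.transpose_one] at h1
  have hZ : FiniteDimensional L (BKOdd.Z1 (ρ.comp (BKPar.D F ι).subtype)) :=
    (BKND.final q F s hq ι L n _ _ hσc hσc' hu hu' hdual hinv').1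
  have hZ' : FiniteDimensional L (BKOdd.Z1 (BKND.Pol.cj b (rhoT ι hcs' ρ))) :=
    (BKND.final q F s hq ι L n _ _ hσc' hσc hu' hu hdual' hinv).1
  have hfin : FiniteDimensional L (BKOdd.cls (ρ.comp (BKPar.D F ι).subtype)
      (MP_7c08ba.Crys.Zf (lift F ι) (ρ.comp (BKPar.D F ι).subtype))) := inferInstance
  have hfin' : FiniteDimensional L (BKOdd.cls (BKND.Pol.cj b (rhoT ι hcs' ρ))
      (MP_7c08ba.Crys.Zf (lift F ι) (BKND.Pol.cj b (rhoT ι hcs' ρ)))) := inferInstance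
  have ht : BKOdd.tdim ι ρ = r := by
    rw [tdim_dec]
    have e1 : rkdR (lift F ι) (ρ.comp (BKPar.D F ι).subtype) = (r : Cardinal) := by
      refine le_antisymm (hr2.trans (le_of_eq ?_)) hr1
      rw [← Module.finrank_eq_rank]
      exact congrArg Nat.cast h1
    rw [e1, Cardinal.toNat_natCast]
  have ht' : BKOdd.tdim (ι.comp (c : AlgebraicClosure F →+* AlgebraicClosure F)) ρ = r' := by
    rw [tdim_cj ι hcs hcs' ρ b]
    have e1 : rkdR (lift F ι) (BKND.Pol.cj b (rhoT ι hcs' ρ)) = (r' : Cardinal) := by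
      refine le_antisymm (hr2'.trans (le_of_eq ?_)) hr1'
      rw [← Module.finrank_eq_rank]
      exact congrArg Nat.cast h2
    rw [e1, Cardinal.toNat_natCast]
  have hmain := parity_hodge_two hq ι c σ hcs' ρ hρ hres hun b hB hpair' hinv hinv' hH'
  rw [ht, ht']
  exact hmain

/-- Parity at one place, `p = 2`, in the same form as for odd `p`. -/
theorem parity_at_two (ζ : AlgebraicClosure F)
    (ι : AlgebraicClosure F →+* PadicAlgCl 2) (hO : RigHyp 2 F ζ ι)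
    (c : AlgebraicClosure F ≃+* AlgebraicClosure F) (σ : F ≃+* F) (hcs : BKOdd.ConjHyp c σ)
    (ρ : BKOdd.GF F →* GL (Fin n) L) (hρ : Continuous ρ)
    (hres : ∀ g ∈ (BKOdd.Kz ζ).fixingSubgroup, ∀ i : ℕ,
      ‖((ρ g : Matrix (Fin n) (Fin n) L).charpoly - (Polynomial.X - 1) ^ n).coeff i‖ < 1)
    (hur : ∀ (l : ℕ) [Fact l.Prime], l ≠ 2 → ∀ j : AlgebraicClosure F →+* PadicAlgCl l,
      ∀ σ ∈ Inert F (AlgebraicClosure F) j, ρ σ = 1)
    (Bu : GL (Fin n) L) (hB : Bu.val.transpose = Bu.val)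
    (hpol : ∀ g, (ρ g : Matrix (Fin n) (Fin n) L).transpose * Bu.val *
      (ρ (BKOdd.conj c σ hcs.h g) : Matrix (Fin n) (Fin n) L) =
        BKOdd.chL (BKOdd.cyc 2 F) L g • Bu.val)
    (hDR : BKOdd.DeRhamAt ι ρ)
    (hFr : BKOdd.FrobAt (BKOdd.Kz ζ).fixingSubgroup ι ρ)
    (hFr' : BKOdd.FrobAt (BKOdd.Kz ζ).fixingSubgroup
      (ι.comp (c : AlgebraicClosure F →+* AlgebraicClosure F)) ρ) :
    FiniteDimensional L (BKOdd.H1f 2 ρ) ∧
      Module.finrank L (BKOdd.H1f 2 ρ) % 2 = BKOdd.tdim ι ρ % 2 ∧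
      Module.finrank L (BKOdd.H1f 2 ρ) ≤ BKOdd.tdim ι ρ ∧
      BKOdd.tdim ι ρ + BKOdd.tdim (ι.comp (c : AlgebraicClosure F →+* AlgebraicClosure F)) ρ =
        n := by
  obtain ⟨q, s, hq, hσs⟩ := fieldHyp hO σ hcs.hσ
  have hζ : ζ = -1 := hO.hζ.eq_neg_one_of_two_right
  have hbot : BKOdd.Kz ζ = ⊥ := by
    rw [BKOdd.Kz, IntermediateField.adjoin_simple_eq_bot_iff, hζ]
    exact neg_mem (one_mem _)
  have htop : (BKOdd.Kz ζ).fixingSubgroup = ⊤ := by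
    rw [hbot, IntermediateField.fixingSubgroup_bot]
  rw [htop] at hres hFr hFr'
  exact parity_final_two hq ι c σ hcs ⟨hcs.h, hσs, hcs.hc⟩ ρ hρ
    (fun g i => hres g (Subgroup.mem_top g) i) ((unr_iff ρ).2 hur) Bu hB hpol hDR hFr hFr'

end Main

end BKGlob
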