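import Pool.Agent.Lib.MP_7c08ba_nt.Odd.BKLoc

set_option autoImplicit false

/-!
The theorem of Bloch and Kato on the local conditions, from local duality: abstract form.
-/

noncomputable section

namespace BKGlob

open BKOdd Matrix

variable {D : Type} [Group D] [TopologicalSpace D] {L : Type} [NormedField L] {n : ℕ}
  {σ σ' : D →* GL (Fin n) L} {χ : D →* L}

theorem bk_local (hσ' : Continuous σ')
    (hdual : ∀ g, (σ g : Matrix (Fin n) (Fin n) L)ᵀ * (σ' g : Matrix (Fin n) (Fin n) L) =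
      χ g • (1 : Matrix (Fin n) (Fin n) L))
    (hf : FiniteDimensional L (H1 σ)) (hf' : FiniteDimensional L (H1 σ'))
    (hd : Module.finrank L (H1 σ) ≤ n) (z : D → D → L)
    (hline : ∀ x ∈ Z1 σ, ∀ y ∈ Z1 σ', ∃ a : L, cupV σ' x y - a • z ∈ CC.B2 χ)
    (nd : ∀ y ∈ Z1 σ', (∀ x ∈ Z1 σ, cupV σ' x y ∈ CC.B2 χ) → y ∈ B1 σ')
    (nd' : ∀ x ∈ Z1 σ, (∀ y ∈ Z1 σ', cupV σ y x ∈ CC.B2 χ) → x ∈ B1 σ)
    {Zf : (D →* GL (Fin n) L) → Submodule L (D → Fin n → L)} {r r' : ℕ}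
    (hH : HodgePair χ Zf σ σ' r r') :
    Module.finrank L (cls σ (Zf σ)) = r ∧ Module.finrank L (cls σ' (Zf σ')) = r' ∧ r + r' = n ∧
      ∀ y ∈ Z1 σ', (y ∈ Zf σ' ↔ ∀ x ∈ Zf σ, cupV σ' x y ∈ CC.B2 χ) := by
  obtain ⟨Λ, hΛ, hΛz⟩ := exists_functional (CC.B2 χ) z
  obtain ⟨b, hb⟩ := exists_pairH hσ' hdual Λ hΛ
  -- the pairing detects coboundaries
  have hΛ' : ∀ x ∈ Z1 σ, ∀ y ∈ Z1 σ', Λ (cupV σ' x y) = 0 → cupV σ' x y ∈ CC.B2 χ := by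
    intro x hx y hy h0
    obtain ⟨a, ha⟩ := hline x hx y hy
    exact hΛz _ a ha h0
  have hb1 : ∀ y, (∀ x, b x y = 0) → y = 0 := by
    intro y hy
    obtain ⟨⟨y, hyz⟩, rfl⟩ := ((B1 σ').submoduleOf (Z1 σ')).mkQ_surjective y
    rw [Submodule.mkQ_apply, Submodule.Quotient.mk_eq_zero]
    refine nd y hyz fun x hx => hΛ' x hx y hyz ?_
    have e1 := hy (((B1 σ).submoduleOf (Z1 σ)).mkQ ⟨x, hx⟩)
    rw [hb] at e1
    exact e1
  have hb2 : ∀ x, (∀ y, b x y = 0) → x = 0 := by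
    intro x hx
    obtain ⟨⟨x, hxz⟩, rfl⟩ := ((B1 σ).submoduleOf (Z1 σ)).mkQ_surjective x
    rw [Submodule.mkQ_apply, Submodule.Quotient.mk_eq_zero]
    refine nd' x hxz fun y hy => ?_
    have e2 : cupV σ' x y ∈ CC.B2 χ := by
      refine hΛ' x hxz y hy ?_
      have e1 := hx (((B1 σ').submoduleOf (Z1 σ')).mkQ ⟨y, hy⟩)
      rw [hb] at e1
      exact e1
    have e3 := (CC.B2 χ).sub_mem (cup_comm hdual hxz hy) e2
    rwa [add_sub_cancel_left] at e3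
  obtain ⟨E, hE, hr, hEo⟩ := hH.left
  obtain ⟨E', hE', hr', hEo'⟩ := hH.right
  obtain ⟨h1, h2, h3, h4⟩ := exact_annihilators b hb1 hb2 (cls σ E) (cls σ (Zf σ))
    (cls σ' E') (cls σ' (Zf σ'))
    (by
      intro y hy
      obtain ⟨y, hyz, hyE, rfl⟩ := mem_cls.mp hy
      exact mem_cls.mpr ⟨y, hyz, hE hyE, rfl⟩)
    (by
      intro y hy
      obtain ⟨y, hyz, hyE, rfl⟩ := mem_cls.mp hy
      exact mem_cls.mpr ⟨y, hyz, hE' hyE, rfl⟩)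
    (by
      intro x hx y hy
      obtain ⟨x, hxz, hxE, rfl⟩ := mem_cls.mp hx
      obtain ⟨y, hyz, hyE, rfl⟩ := mem_cls.mp hy
      rw [hb]
      exact hΛ _ (hEo x hxE y hyE))
    (by
      intro x hx y hy
      obtain ⟨x, hxz, hxE, rfl⟩ := mem_cls.mp hx
      obtain ⟨y, hyz, hyE, rfl⟩ := mem_cls.mp hy
      rw [hb]
      apply hΛ
      have e1 := (CC.B2 χ).sub_mem (cup_comm hdual hxz hyz) (hEo' y hyE x hxE)
      rwa [add_sub_cancel_right] at e1)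
    (hr hf) (hr' hf') hH.le hd
  refine ⟨h1, h2, h3, fun y hy => ?_⟩
  rw [← mem_cls_mk hH.bz' hy, h4]
  constructor
  · intro e1 x hx
    have e2 := e1 (((B1 σ).submoduleOf (Z1 σ)).mkQ ⟨x, hH.zz hx⟩)
      ((mem_cls_mk hH.bz _).mpr hx)
    rw [hb] at e2
    exact hΛ' x (hH.zz hx) y hy e2
  · intro e1 x hx
    obtain ⟨x, hxz, hxE, rfl⟩ := mem_cls.mp hx
    rw [hb]
    exact hΛ _ (e1 x hxE)

end BKGlob
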