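import Pool.Agent.Lib.MP_7c08ba_nt.Glob.Two

set_option autoImplicit false

/-!
The parity theorem for the Bloch–Kato Selmer group, `p = 2`, from the properties of the local
exponential map.
-/

noncomputable section

namespace BKGlob

open TensorProduct Matrix MP_7c08ba.Crys Pool.Agent.Lib.MP_7c08ba_nt NumberField

section Triv

variable {l : ℕ} [Fact l.Prime] {F Ω : Type} [Field F] [Field Ω] [Algebra F Ω]
variable {L : Type} [NormedField L] [NormedAlgebra ℚ_[l] L] {n : ℕ}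
variable {B : Type} [CommRing B] [Algebra ℚ_[l] B]
  {γ : (PadicAlgCl l ≃ₐ[ℚ_[l]] PadicAlgCl l) → B →ₐ[ℚ_[l]] B} {j : Ω →+* PadicAlgCl l}
  {ρ : (Ω ≃ₐ[F] Ω) →* GL (Fin n) L} {x y : (Ω ≃ₐ[F] Ω) → Fin n → L}

theorem IsTriv.add (hx : IsTriv γ j ρ x) (hy : IsTriv γ j ρ y) : IsTriv γ j ρ (x + y) := by
  obtain ⟨b, hb⟩ := hx
  obtain ⟨b', hb'⟩ := hy
  refine ⟨b + b', fun σ t h => ?_⟩
  rw [map_add, Pi.add_apply, TensorProduct.add_tmul, ← hb σ t h, ← hb' σ t h]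
  abel

theorem IsTriv.zero : IsTriv γ j ρ (0 : (Ω ≃ₐ[F] Ω) → Fin n → L) :=
  ⟨0, fun σ t _ => by rw [map_zero, sub_zero, Pi.zero_apply, TensorProduct.zero_tmul]⟩

theorem IsTriv.smul (a : L) (hx : IsTriv γ j ρ x) : IsTriv γ j ρ (a • x) := by
  obtain ⟨b, hb⟩ := hx
  refine ⟨a • b, fun σ t h => ?_⟩
  have h1 := smul_sub a (actM (ρ σ : Matrix (Fin n) (Fin n) L) (γ t) b) b
  rw [hb σ t h] at h1
  rw [map_smul]
  exact h1.symm

end Triv

section Sel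

variable {F : Type} [Field F] {L : Type} [NormedField L] [NormedAlgebra ℚ_[2] L] {n : ℕ}

/-- the cocycles in the Bloch–Kato Selmer group -/
def selF (ρ : AbsGal F →* GL (Fin n) L) : Submodule L (AbsGal F → Fin n → L) where
  carrier := {x | x ∈ BKPar.WF ρ ∧
    ∀ j : AlgebraicClosure F →+* PadicAlgCl 2, IsTriv galBa j ρ x}
  add_mem' := fun hx hy => ⟨(BKPar.WF ρ).add_mem hx.1 hy.1, fun j => (hx.2 j).add (hy.2 j)⟩
  zero_mem' := ⟨(BKPar.WF ρ).zero_mem, fun _ => IsTriv.zero⟩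
  smul_mem' := fun a _ hx => ⟨(BKPar.WF ρ).smul_mem a hx.1, fun j => (hx.2 j).smul a⟩

end Sel

section Emb

variable {F : Type} [Field F] [NumberField F] {q : ℕ} {s : F}

theorem algQ : Algebra.IsAlgebraic ℚ (AlgebraicClosure F) :=
  Algebra.IsAlgebraic.trans ℚ F (AlgebraicClosure F)

/-- the embeddings are of the form `ι ∘ τ` and `ι ∘ c ∘ τ` -/
theorem emb_cases (hq : BKPar.FieldHyp q F s) (ι j : AlgebraicClosure F →+* PadicAlgCl 2)
    (c : AlgebraicClosure F ≃+* AlgebraicClosure F) (σF : F ≃+* F) (hcs : BKPar.ConjHyp s c σF) :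
    (∃ τ : AbsGal F, j = ι.comp (τ : AlgebraicClosure F →+* AlgebraicClosure F)) ∨
    ∃ τ : AbsGal F, j = (ι.comp (c : AlgebraicClosure F →+* AlgebraicClosure F)).comp
      (τ : AlgebraicClosure F →+* AlgebraicClosure F) := by
  have hal : Algebra.IsAlgebraic ℚ (AlgebraicClosure F) := algQ
  obtain ⟨θ, hθ⟩ := exists_auto ι j
  set am := algebraMap F (AlgebraicClosure F) with ham
  have hsq : (θ (am s)) ^ 2 = (am s) ^ 2 := by
    rw [← map_pow, ← map_pow, hq.hs, map_neg, map_neg, map_natCast, map_natCast]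
  have hfix : ∀ η : AlgebraicClosure F ≃+* AlgebraicClosure F, η (am s) = am s →
      ∀ a : F, η (am a) = am a := by
    intro η hη a
    obtain ⟨x, y, rfl⟩ := exists_coords hq.hq0 hq.hF hq.hs a
    simp only [map_add, map_mul, map_ratCast, hη]
  rcases sq_eq_sq_iff_eq_or_eq_neg.1 hsq with h1 | h1
  · left
    refine ⟨AlgEquiv.ofRingEquiv (f := θ) (hfix θ h1), ?_⟩
    ext y
    exact (hθ y).symm
  · right
    have h2 : (θ.trans c) (am s) = am s := by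
      rw [RingEquiv.trans_apply, h1, map_neg, hcs.h, hcs.hσ, map_neg, neg_neg]
    refine ⟨AlgEquiv.ofRingEquiv (f := θ.trans c) (hfix _ h2), ?_⟩
    ext y
    change j y = ι (c (c (θ y)))
    rw [hcs.hc, hθ]

end Emb

section Main

variable {F : Type} [Field F] [NumberField F] {q : ℕ} {s : F}
variable {L : Type} [NormedField L] [NormedAlgebra ℚ_[2] L] [FiniteDimensional ℚ_[2] L] {n : ℕ}

/-- the conjugate representation on the decomposition group -/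
abbrev rhoT (ι : AlgebraicClosure F →+* PadicAlgCl 2)
    {c : AlgebraicClosure F ≃+* AlgebraicClosure F} {σF : F ≃+* F} (hcs : BKPar.ConjHyp s c σF)
    (ρ : AbsGal F →* GL (Fin n) L) : BKPar.D F ι →* GL (Fin n) L :=
  (ρ.comp (BKPar.conj c σF hcs.h)).comp (BKPar.D F ι).subtype

theorem s_ne_zero (hq : BKPar.FieldHyp q F s) : s ≠ 0 := by
  intro h0
  have h1 := hq.hs
  rw [h0] at h1
  have h2 : (q : F) = 0 := by linear_combination h1
  exact hq.hq0.ne' (Nat.cast_eq_zero.1 h2)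

/-- the second cohomology of the decomposition group is generated by one class -/
theorem line_two (hq : BKPar.FieldHyp q F s) (ι : AlgebraicClosure F →+* PadicAlgCl 2)
    (c : AlgebraicClosure F ≃+* AlgebraicClosure F) (σF : F ≃+* F) (hcs : BKPar.ConjHyp s c σF)
    (ρ : AbsGal F →* GL (Fin n) L) (hρ : Continuous ρ)
    (hres : BKPar.ResUni ρ) (hun : BKPar.UnramifiedAwayTwo ρ)
    (b : GL (Fin n) L) (hB : (b : Matrix (Fin n) (Fin n) L)ᵀ = b)
    (hpair : ∀ g, (ρ g : Matrix (Fin n) (Fin n) L)ᵀ * (b : Matrix (Fin n) (Fin n) L) *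
      (ρ (BKPar.conj c σF hcs.h g) : Matrix (Fin n) (Fin n) L) =
        BKPar.chi (BKPar.cyc F) L g • (b : Matrix (Fin n) (Fin n) L)) :
    ∃ z : BKPar.D F ι → BKPar.D F ι → L, ∀ x ∈ BKOdd.Z1 (ρ.comp (BKPar.D F ι).subtype),
      ∀ y ∈ BKOdd.Z1 (BKND.Pol.cj b (rhoT ι hcs ρ)), ∃ a : L,
      BKOdd.cupV (BKND.Pol.cj b (rhoT ι hcs ρ)) x y - a • z ∈
        CC.B2 (BKOdd.chL (cycD F ι) L) := by
  have hAdm := BKPar.stAdm
  have hSq := BKPar.stSq hAdm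
  have hR : (BKPar.R F).Normal := (hAdm F).1
  have hs0 : s ≠ 0 := s_ne_zero hq
  obtain ⟨hP2, hDU, hloc, hfin, hkum⟩ := BKPar.count' q F s hq ι hR
  obtain ⟨hτc, hτ2, hτR, hτχ, hi⟩ := BKPar.stConj hAdm F s c σF hcs hs0
  obtain ⟨hχc, hχR⟩ := BKPar.stCycR hAdm hSq F
  have hul : IsUltrametricDist L := BKPar.ultra_of_algebra L
  have h2L : ‖(2 : L)‖ < 1 := BKPar.norm_two_lt L
  obtain ⟨hρR, hxR⟩ := BKPar.stKill F L h2L n ρ hρ hres hun
  obtain ⟨⟨z1, hz1⟩, hτinv⟩ := BKPar.h2part hAdm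
    (BKPar.stLine BKPar.stShapiro (BKPar.stGysin BKPar.stShapiro)) BKPar.stLift hSq
    BKPar.count' (BKPar.stConj hAdm) (BKPar.stCycR hAdm hSq) (BKPar.stCyc hAdm hSq) hq ι c σF hcs L
  set τ : AbsGal F →* AbsGal F := BKPar.conj c σF hcs.h with hτdef
  obtain ⟨hAlt1, -⟩ := BKPar.stAlt (AbsGal F) (BKPar.cyc F) hχc τ hτc hτ2 hτχ L n ρ hρ
    (b : Matrix (Fin n) (Fin n) L) hB hpair
  have hDR := BKPar.stDR hAdm q F s hq ι
  refine ⟨fun g h => z1 g h, fun x hx y hy => ?_⟩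
  obtain ⟨X, hX, hXR, hXx⟩ := BKPar.stExt (AbsGal F) (BKPar.R F) (BKPar.D F ι) hR (hAdm F).2.1
    (BKPar.isClosed_D F ι) hDR hloc L h2L n ρ hρ hres hρR x hx
  -- the cocycle with values in the conjugate representation
  have hy' : (fun d => ((b⁻¹ : GL (Fin n) L) : Matrix (Fin n) (Fin n) L) *ᵥ y d) ∈
      BKPar.Z1 ((ρ.comp τ).comp (BKPar.D F ι).subtype) := by
    refine ⟨continuous_const.matrix_mulVec hy.1, fun g h => ?_⟩
    simp only [hy.2 g h, Matrix.mulVec_add, BKND.Pol.cj_mulVec, BKND.Pol.inv_mul_mulVec]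
    rfl
  obtain ⟨Y, hY, hYR, hYy⟩ := BKPar.stExt (AbsGal F) (BKPar.R F) (BKPar.D F ι) hR (hAdm F).2.1
    (BKPar.isClosed_D F ι) hDR hloc L h2L n (ρ.comp τ) (hρ.comp hτc)
    (fun g i => hres (τ g) i) (fun r hr => hρR _ (hτR r hr)) _ hy'
  -- the conjugate of `Y`
  have hY' : (fun g => Y (τ g)) ∈ BKPar.Z1 ρ := by
    refine ⟨hY.1.comp hτc, fun g h => ?_⟩
    change Y (τ (g * h)) = Y (τ g) + (ρ g : Matrix (Fin n) (Fin n) L).mulVec (Y (τ h))
    rw [map_mul, hY.2, MonoidHom.comp_apply, hτ2]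
  have hz := hAlt1 X hX _ hY'
  have hXinv : ∀ g, ∀ r ∈ BKPar.R F, X (g * r) = X g := by
    intro g r hr
    rw [hX.2 g r, hXR r hr, Matrix.mulVec_zero, add_zero]
  have hYinv : ∀ g, ∀ r ∈ BKPar.R F, Y (g * r) = Y g := by
    intro g r hr
    rw [hY.2 g r, hYR r hr, Matrix.mulVec_zero, add_zero]
  obtain ⟨a, β, hβ, hβ'⟩ := hz1 _ hz (by
    intro g h r hr r' hr'
    simp only [hτ2, hXinv g r hr, hYinv h r' hr', map_mul, hρR _ (hτR r hr), mul_one])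
  refine ⟨a, fun d => β d, hβ.comp continuous_subtype_val, fun g h => ?_⟩
  have h1 := hβ' g h
  simp only [hτ2] at h1
  have h2 : BKOdd.cupV (BKND.Pol.cj b (rhoT ι hcs ρ)) x y g h =
      X g ⬝ᵥ (b : Matrix (Fin n) (Fin n) L).mulVec
      ((ρ (τ g) : Matrix (Fin n) (Fin n) L).mulVec (Y h)) := by
    change x g ⬝ᵥ (BKND.Pol.cj b (rhoT ι hcs ρ) g : Matrix (Fin n) (Fin n) L) *ᵥ y h = _
    rw [BKND.Pol.cj_mulVec, hXx g, hYy h]
    rfl
  have h3 : (BKOdd.cupV (BKND.Pol.cj b (rhoT ι hcs ρ)) x y -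
      a • (fun g h : BKPar.D F ι => z1 g h)) g h =
      BKOdd.cupV (BKND.Pol.cj b (rhoT ι hcs ρ)) x y g h - a * z1 g h := rfl
  have h4 : ((g * h : BKPar.D F ι) : AbsGal F) = (g : AbsGal F) * (h : AbsGal F) := rfl
  have h5 : BKOdd.chL (cycD F ι) L g = BKPar.chi (BKPar.cyc F) L g := rfl
  rw [h3, h2, h5]
  simp only [h4]
  linear_combination h1

theorem dual_cj (ι : AlgebraicClosure F →+* PadicAlgCl 2)
    (c : AlgebraicClosure F ≃+* AlgebraicClosure F) (σF : F ≃+* F) (hcs : BKPar.ConjHyp s c σF)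
    (ρ : AbsGal F →* GL (Fin n) L) (b : GL (Fin n) L)
    (hpair : ∀ g, (ρ g : Matrix (Fin n) (Fin n) L)ᵀ * (b : Matrix (Fin n) (Fin n) L) *
      (ρ (BKPar.conj c σF hcs.h g) : Matrix (Fin n) (Fin n) L) =
        BKPar.chi (BKPar.cyc F) L g • (b : Matrix (Fin n) (Fin n) L)) (g : BKPar.D F ι) :
    ((ρ.comp (BKPar.D F ι).subtype) g : Matrix (Fin n) (Fin n) L)ᵀ *
      (BKND.Pol.cj b (rhoT ι hcs ρ) g : Matrix (Fin n) (Fin n) L) =
      BKOdd.chL (cycD F ι) L g • (1 : Matrix (Fin n) (Fin n) L) := by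
  have h1 := hpair g
  have h5 : BKOdd.chL (cycD F ι) L g = BKPar.chi (BKPar.cyc F) L g := rfl
  have h6 : (b : Matrix (Fin n) (Fin n) L) * ((b⁻¹ : GL (Fin n) L) : Matrix (Fin n) (Fin n) L) = 1 := by
    rw [← Units.val_mul, mul_inv_cancel, Units.val_one]
  rw [BKND.Pol.cj_apply, ← Matrix.mul_assoc, ← Matrix.mul_assoc]
  change (ρ g : Matrix (Fin n) (Fin n) L)ᵀ * (b : Matrix (Fin n) (Fin n) L) *
      (ρ (BKPar.conj c σF hcs.h g) : Matrix (Fin n) (Fin n) L) *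
      ((b⁻¹ : GL (Fin n) L) : Matrix (Fin n) (Fin n) L) = _
  rw [h1, h5, Matrix.smul_mul, h6]

/-- transport of the local condition along the isomorphism `b` -/
theorem zf_cj (ι : AlgebraicClosure F →+* PadicAlgCl 2) (a : BKPar.D F ι →* GQp 2)
    (σ : BKPar.D F ι →* GL (Fin n) L) (b : GL (Fin n) L) (x : BKPar.D F ι → Fin n → L) :
    (fun d => (b : Matrix (Fin n) (Fin n) L) *ᵥ x d) ∈ ZCris a (toEnd (BKND.Pol.cj b σ)) ↔
      x ∈ ZCris a (toEnd σ) := by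
  have key : ∀ (b : GL (Fin n) L) (σ : BKPar.D F ι →* GL (Fin n) L)
      (x : BKPar.D F ι → Fin n → L), x ∈ ZCris a (toEnd σ) →
      (fun d => (b : Matrix (Fin n) (Fin n) L) *ᵥ x d) ∈ ZCris a (toEnd (BKND.Pol.cj b σ)) := by
    intro b σ x hx
    rw [mem_ZCris] at hx ⊢
    obtain ⟨w, hw⟩ := hx
    refine ⟨matM (BCris 2) (b : Matrix (Fin n) (Fin n) L) w, fun g => ?_⟩
    have h1 := congrArg (matM (BCris 2) (b : Matrix (Fin n) (Fin n) L)) (hw g)
    have h2 : act (toEnd σ) (gB a) g w = actM (σ g : Matrix (Fin n) (Fin n) L) (galBa (a g)) w := rfl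
    have h3 : act (toEnd (BKND.Pol.cj b σ)) (gB a) g
        (matM (BCris 2) (b : Matrix (Fin n) (Fin n) L) w) =
        actM (BKND.Pol.cj b σ g : Matrix (Fin n) (Fin n) L) (galBa (a g))
          (matM (BCris 2) (b : Matrix (Fin n) (Fin n) L) w) := rfl
    have h4 : (BKND.Pol.cj b σ g : Matrix (Fin n) (Fin n) L) * (b : Matrix (Fin n) (Fin n) L) =
        (b : Matrix (Fin n) (Fin n) L) * (σ g : Matrix (Fin n) (Fin n) L) := by
      rw [BKND.Pol.cj_apply, Matrix.mul_assoc, ← Units.val_mul b⁻¹ b, inv_mul_cancel,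
        Units.val_one, Matrix.mul_one]
    rw [map_sub, h2, matM_actM] at h1
    rw [h3, actM_matM, h4, h1]
    rfl
  refine ⟨fun h => ?_, key b σ x⟩
  have h1 := key b⁻¹ (BKND.Pol.cj b σ) _ h
  have h2 : BKND.Pol.cj b⁻¹ (BKND.Pol.cj b σ) = σ := by
    ext1 g
    change b⁻¹ * (b * σ g * b⁻¹) * (b⁻¹)⁻¹ = σ g
    group
  rw [h2] at h1
  simp only [BKND.Pol.inv_mul_mulVec] at h1
  exact h1

theorem parity_two (hq : BKPar.FieldHyp q F s) (ι : AlgebraicClosure F →+* PadicAlgCl 2)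
    (c : AlgebraicClosure F ≃+* AlgebraicClosure F) (σF : F ≃+* F) (hcs : BKPar.ConjHyp s c σF)
    (ρ : AbsGal F →* GL (Fin n) L) (hρ : Continuous ρ)
    (hres : BKPar.ResUni ρ) (hun : BKPar.UnramifiedAwayTwo ρ)
    (b : GL (Fin n) L) (hB : (b : Matrix (Fin n) (Fin n) L)ᵀ = b)
    (hpair : ∀ g, (ρ g : Matrix (Fin n) (Fin n) L)ᵀ * (b : Matrix (Fin n) (Fin n) L) *
      (ρ (BKPar.conj c σF hcs.h g) : Matrix (Fin n) (Fin n) L) =
        BKPar.chi (BKPar.cyc F) L g • (b : Matrix (Fin n) (Fin n) L))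
    (hinv : ∀ v : Fin n → L, (∀ g : BKPar.D F ι,
      ((ρ.comp (BKPar.D F ι).subtype) g : Matrix (Fin n) (Fin n) L) *ᵥ v = v) → v = 0)
    (hinv' : ∀ v : Fin n → L, (∀ g : BKPar.D F ι,
      (BKND.Pol.cj b (rhoT ι hcs ρ) g : Matrix (Fin n) (Fin n) L) *ᵥ v = v) → v = 0)
    {r r' : ℕ}
    (hH : BKOdd.HodgePair (BKOdd.chL (cycD F ι) L) (Zf (lift F ι)) (ρ.comp (BKPar.D F ι).subtype)
      (BKND.Pol.cj b (rhoT ι hcs ρ)) r r') :
    r + r' = n ∧ ∃ m k : ℕ, BKPar.classRank (selF ρ) (BKPar.B1 ρ) = m ∧ r = m + 2 * k := by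
  have hAdm := BKPar.stAdm
  have hs0 : s ≠ 0 := s_ne_zero hq
  obtain ⟨hτc, hτ2, hτR, hτχ, hi⟩ := BKPar.stConj hAdm F s c σF hcs hs0
  obtain ⟨z, hz⟩ := line_two hq ι c σF hcs ρ hρ hres hun b hB hpair
  have hσc : Continuous (ρ.comp (BKPar.D F ι).subtype) := hρ.comp continuous_subtype_val
  have hσc' : Continuous (BKND.Pol.cj b (rhoT ι hcs ρ)) :=
    BKND.Pol.cj_continuous b ((hρ.comp hτc).comp continuous_subtype_val)
  have hu : BKPar.ResUni (ρ.comp (BKPar.D F ι).subtype) := fun g i => hres g i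
  have hu' : BKPar.ResUni (BKND.Pol.cj b (rhoT ι hcs ρ)) :=
    BKND.Pol.cj_resUni b fun g i => hres _ i
  have hdual := dual_cj ι c σF hcs ρ b hpair
  obtain ⟨h1, h2, h3, h4⟩ := local_two hq ι _ _ hσc hσc' hu hu' hdual hinv hinv' z hz hH
  refine ⟨h3, ?_⟩
  obtain ⟨m, k, hm, hk⟩ := BKPar.parity_classes hq ι c σF hcs ρ hρ hres hun b hB hpair
    (Zf (lift F ι) (ρ.comp (BKPar.D F ι).subtype)) hH.bz hH.zz
  -- the dimension of the local condition
  have hZfin : FiniteDimensional L (BKOdd.Z1 (ρ.comp (BKPar.D F ι).subtype)) :=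
    (BKND.final q F s hq ι L n _ _ hσc hσc' hu hu' hdual hinv').1
  have hAfin : FiniteDimensional L (Zf (lift F ι) (ρ.comp (BKPar.D F ι).subtype)) :=
    Submodule.finiteDimensional_of_le hH.zz
  have hcr : BKPar.classRank (Zf (lift F ι) (ρ.comp (BKPar.D F ι).subtype))
      (BKPar.B1 (ρ.comp (BKPar.D F ι).subtype)) = (r : ℕ) := by
    have hle : BKPar.B1 (ρ.comp (BKPar.D F ι).subtype) ≤
      Zf (lift F ι) (ρ.comp (BKPar.D F ι).subtype) := hH.bz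
    rw [BKPar.classRank_eq _ _ hle]
    have e1 := BKOdd.finrank_cls hσc (Zf (lift F ι) (ρ.comp (BKPar.D F ι).subtype)) hH.bz hH.zz
    rw [h1] at e1
    have e2 : Module.finrank L (BKPar.B1 (ρ.comp (BKPar.D F ι).subtype)) =
      Module.finrank L (BKOdd.B1 (ρ.comp (BKPar.D F ι).subtype)) := rfl
    congr 1
    omega
  rw [hcr] at hk
  have hr : r = m + 2 * k := by exact_mod_cast hk
  -- cocycles with values in the conjugate representation
  have hconj : ∀ x ∈ BKPar.WF ρ, (fun d : BKPar.D F ι => (b : Matrix (Fin n) (Fin n) L) *ᵥ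
      x (BKPar.conj c σF hcs.h d)) ∈ BKOdd.Z1 (BKND.Pol.cj b (rhoT ι hcs ρ)) := by
    intro x hx
    refine ⟨continuous_const.matrix_mulVec (hx.1.1.comp (hτc.comp continuous_subtype_val)),
      fun g h => ?_⟩
    have e1 : ((g * h : BKPar.D F ι) : AbsGal F) = (g : AbsGal F) * (h : AbsGal F) := rfl
    simp only [e1, map_mul, hx.1.2, Matrix.mulVec_add]
    congr 1
    change _ = (BKND.Pol.cj b (rhoT ι hcs ρ) g : Matrix (Fin n) (Fin n) L) *ᵥ
      ((b : Matrix (Fin n) (Fin n) L) *ᵥ x (BKPar.conj c σF hcs.h h))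
    rw [BKND.Pol.cj_mulVec, BKND.Pol.inv_mul_mulVec]
    rfl
  have hcup : ∀ (x : AbsGal F → Fin n → L) (y : BKPar.D F ι → Fin n → L),
      BKOdd.cupV (BKND.Pol.cj b (rhoT ι hcs ρ)) y (fun d : BKPar.D F ι =>
        (b : Matrix (Fin n) (Fin n) L) *ᵥ x (BKPar.conj c σF hcs.h d)) =
      BKPar.cupD ρ (BKPar.conj c σF hcs.h) (b : Matrix (Fin n) (Fin n) L) (BKPar.D F ι) y x := by
    intro x y
    funext g h
    change y g ⬝ᵥ (BKND.Pol.cj b (rhoT ι hcs ρ) g : Matrix (Fin n) (Fin n) L) *ᵥ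
      ((b : Matrix (Fin n) (Fin n) L) *ᵥ x (BKPar.conj c σF hcs.h h)) = _
    rw [BKND.Pol.cj_mulVec, BKND.Pol.inv_mul_mulVec]
    rfl
  have hSel : selF ρ = BKPar.Sel (BKPar.cyc F) ρ (BKPar.conj c σF hcs.h)
      (b : Matrix (Fin n) (Fin n) L) (BKPar.D F ι) (BKPar.WF ρ)
      (Zf (lift F ι) (ρ.comp (BKPar.D F ι).subtype)) := by
    ext x
    constructor
    · rintro ⟨hx, hj⟩
      refine ⟨hx, ⟨⟨hx.1.1.comp continuous_subtype_val, fun g h => hx.1.2 g h⟩,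
        (isTriv_iff ι ρ x).1 (hj ι)⟩, fun y hy => ?_⟩
      rw [mem_CB2_iff, ← hcup]
      have e1 := (IsTriv.conj galBa ι c σF hcs.h hcs.hc ρ x).1 (hj _)
      exact (h4 _ (hconj x hx)).1 ⟨hconj x hx, (zf_cj ι (lift F ι) (rhoT ι hcs ρ) b
        (fun d => x (BKPar.conj c σF hcs.h d))).2 ((isTriv_iff ι _ _).1 e1)⟩ y hy
    · rintro ⟨hx, hA, ho⟩
      refine ⟨hx, fun j => ?_⟩
      rcases emb_cases hq ι j c σF hcs with ⟨τ', rfl⟩ | ⟨τ', rfl⟩
      · exact (IsTriv.trans galBa ι hx.1.2 τ').2 ((isTriv_iff ι ρ x).2 hA.2)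
      · refine (IsTriv.trans galBa _ hx.1.2 τ').2 ?_
        rw [IsTriv.conj galBa ι c σF hcs.h hcs.hc ρ x, isTriv_iff]
        have e1 : (fun d : BKPar.D F ι => (b : Matrix (Fin n) (Fin n) L) *ᵥ
            x (BKPar.conj c σF hcs.h d)) ∈ Zf (lift F ι) (BKND.Pol.cj b (rhoT ι hcs ρ)) := by
          refine (h4 _ (hconj x hx)).2 fun y hy => ?_
          rw [hcup, ← mem_CB2_iff]
          exact ho y hy
        exact (zf_cj ι (lift F ι) (rhoT ι hcs ρ) b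
          (fun d => x (BKPar.conj c σF hcs.h d))).1 e1.2
  exact ⟨m, k, by rw [hSel]; exact hm, hr⟩


end Main

end BKGlob
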