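import Pool.Agent.Lib.MP_7c08ba_nt.Glob.Inert
import Pool.Agent.Lib.MP_7c08ba_nt.Glob.Sel

set_option autoImplicit false

/-!
The parity theorem for `H¹_f(F, V)`, `p = 2`, given the properties of the exponential map.
-/

noncomputable section

namespace BKGlob

open BKGen BKGen.Genus NumberField Pool.Agent.Lib.MP_7c08ba_nt Matrix MP_7c08ba.Crys

section Unr

variable {F : Type} [Field F] [NumberField F] {L : Type} [NormedField L] {n : ℕ}

theorem unr_iff (ρ : AbsGal F →* GL (Fin n) L) :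
    BKPar.UnramifiedAwayTwo ρ ↔ ∀ (l : ℕ) [Fact l.Prime], l ≠ 2 →
      ∀ j : AlgebraicClosure F →+* PadicAlgCl l, ∀ σ ∈ Inert F (AlgebraicClosure F) j, ρ σ = 1 := by
  constructor
  · intro h l _ hl j σ hσ
    refine h (primeOf j) inferInstance ?_ σ (inert_of_Inert j hσ)
    intro h2
    have h3 := (natCast_mem_primeOf j (E := AlgebraicClosure F) Nat.prime_two).1 h2
    exact hl h3.symm
  · intro h P hP h2 g hg
    rcases exists_Inert (p := 2) P hP h2 hg with rfl | ⟨l, hl, hl2, j, hj⟩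
    · exact map_one ρ
    · exact h l hl2 j g hj

theorem wf_eq_wur (ρ : AbsGal F →* GL (Fin n) L) : BKPar.WF ρ = BKOdd.Wur 2 ρ := by
  ext x
  constructor
  · rintro ⟨h1, h2⟩
    refine ⟨h1, fun l _ hl j σ hσ => h2 (primeOf j) inferInstance ?_ σ (inert_of_Inert j hσ)⟩
    intro h2
    have h3 := (natCast_mem_primeOf j (E := AlgebraicClosure F) Nat.prime_two).1 h2
    exact hl h3.symm
  · rintro ⟨h1, h2⟩
    refine ⟨h1, fun P hP hP2 g hg => ?_⟩
    rcases exists_Inert (p := 2) P hP hP2 hg with rfl | ⟨l, hl, hl2, j, hj⟩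
    · have h3 := h1.2 1 1
      rw [mul_one, map_one, Units.val_one, Matrix.one_mulVec] at h3
      exact left_eq_add.1 h3
    · exact h2 l hl2 j g hj

variable [NormedAlgebra ℚ_[2] L]

theorem selF_eq (ρ : AbsGal F →* GL (Fin n) L) (hun : BKPar.UnramifiedAwayTwo ρ) :
    selF ρ = BKOdd.Z1f 2 ρ := by
  ext x
  constructor
  · rintro ⟨h1, h2⟩
    refine ⟨h1.1, (BKOdd.unrAway_iff ρ ((unr_iff ρ).1 hun) h1.1).2 ?_, h2⟩
    rw [← wf_eq_wur]
    exact h1
  · rintro ⟨h1, h2, h3⟩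
    refine ⟨?_, h3⟩
    rw [wf_eq_wur]
    exact (BKOdd.unrAway_iff ρ ((unr_iff ρ).1 hun) h1).1 h2

end Unr

section Main

variable {F : Type} [Field F] [NumberField F] {q : ℕ} {s : F}
variable {L : Type} [NormedField L] [NormedAlgebra ℚ_[2] L] [FiniteDimensional ℚ_[2] L] {n : ℕ}

/-- **Parity of `H¹_f(F, V)` for `p = 2`**, from the properties of the exponential map. -/
theorem parity_hodge_two (hq : BKPar.FieldHyp q F s) (ι : AlgebraicClosure F →+* PadicAlgCl 2)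
    (c : AlgebraicClosure F ≃+* AlgebraicClosure F) (σF : F ≃+* F) (hcs : BKPar.ConjHyp s c σF)
    (ρ : AbsGal F →* GL (Fin n) L) (hρ : Continuous ρ)
    (hres : BKPar.ResUni ρ) (hun : BKPar.UnramifiedAwayTwo ρ)
    (b : GL (Fin n) L) (hB : (b : Matrix (Fin n) (Fin n) L)ᵀ = b)
    (hpair : ∀ g, (ρ g : Matrix (Fin n) (Fin n) L)ᵀ * (b : Matrix (Fin n) (Fin n) L) *
      (ρ (BKPar.conj c σF hcs.h g) : Matrix (Fin n) (Fin n) L) =
        BKPar.chi (BKPar.cyc F) L g • (b : Matrix (Fin n) (Fin n) L))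
    (hinv : ∀ v : Fin n → L, (∀ g : BKPar.D F ι,
      ((ρ.comp (BKPar.D F ι).subtype) g : Matrix (Fin n) (Fin n) L) *ᵥ v = v) → v = 0)
    (hinv' : ∀ v : Fin n → L, (∀ g : BKPar.D F ι,
      (BKND.Pol.cj b (rhoT ι hcs ρ) g : Matrix (Fin n) (Fin n) L) *ᵥ v = v) → v = 0)
    {r r' : ℕ}
    (hH : BKOdd.HodgePair (BKOdd.chL (cycD F ι) L) (Zf (lift F ι)) (ρ.comp (BKPar.D F ι).subtype)
      (BKND.Pol.cj b (rhoT ι hcs ρ)) r r') :
    FiniteDimensional L (BKOdd.H1f 2 ρ) ∧ Module.finrank L (BKOdd.H1f 2 ρ) % 2 = r % 2 ∧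
      Module.finrank L (BKOdd.H1f 2 ρ) ≤ r ∧ r + r' = n := by
  obtain ⟨h1, m, k, h2, h3⟩ := parity_two hq ι c σF hcs ρ hρ hres hun b hB hpair hinv hinv' hH
  have hR : (BKPar.R F).Normal := (BKPar.stAdm F).1
  obtain ⟨-, -, -, hfin, -⟩ := BKPar.count' q F s hq ι hR
  have hul : IsUltrametricDist L := BKPar.ultra_of_algebra L
  have h2L : ‖(2 : L)‖ < 1 := BKPar.norm_two_lt L
  obtain ⟨-, hxR⟩ := BKPar.stKill F L h2L n ρ hρ hres hun
  have hWR : ∀ x ∈ BKPar.WF ρ, ∀ r ∈ BKPar.R F, x r = 0 := fun x hx => hxR x hx.1 hx.2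
  have hWfin : FiniteDimensional L (BKPar.WF ρ) :=
    BKPar.stFin (AbsGal F) (BKPar.R F) hfin L h2L n ρ hρ hres (BKPar.WF ρ) (fun x hx => hx.1) hWR
  have hSW : selF ρ ≤ BKPar.WF ρ := fun x hx => hx.1
  have hSfin : FiniteDimensional L (selF ρ) := Submodule.finiteDimensional_of_le hSW
  have hSZ : selF ρ ≤ BKOdd.Z1 ρ := fun x hx => hx.1.1
  have hBS : BKPar.B1 ρ ≤ selF ρ := by
    intro x hx
    refine ⟨BKPar.B1_le_WF ρ hρ hun hx, fun j => ?_⟩
    obtain ⟨v, rfl⟩ := hx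
    refine ⟨v ⊗ₜ 1, fun σ t _ => ?_⟩
    rw [actM_tmul, map_one, ← TensorProduct.sub_tmul]
    rfl
  have e1 : Module.finrank L (BKOdd.H1f 2 ρ) = m := by
    have e2 : BKOdd.H1f 2 ρ = BKOdd.cls ρ (selF ρ) := by
      rw [selF_eq ρ hun]
      rfl
    have e3 := BKOdd.finrank_cls hρ (selF ρ) hBS hSZ
    have e4 : Module.finrank L (BKPar.B1 ρ) = Module.finrank L (BKOdd.B1 ρ) := rfl
    rw [BKPar.classRank_eq _ _ hBS] at h2
    have e5 : Module.finrank L (selF ρ) - Module.finrank L (BKPar.B1 ρ) = m := by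
      exact_mod_cast h2
    rw [e2]
    omega
  refine ⟨?_, ?_, ?_, h1⟩
  · have e2 : BKOdd.H1f 2 ρ = BKOdd.cls ρ (selF ρ) := by
      rw [selF_eq ρ hun]
      rfl
    rw [e2]
    exact BKOdd.finite_cls (selF ρ) hSZ
  · omega
  · omega

end Main

end BKGlob
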