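import Pool.Agent.Lib.MP_7c08ba_nt.Gen.GenusBridge
import Pool.Agent.Lib.MP_7c08ba_nt.Odd.GlobF
import Pool.Agent.Lib.MP_7c08ba_nt.Par.Final

set_option autoImplicit false

/-!
The two descriptions of the inertia groups: primes of the ring of all algebraic integers, and
embeddings into the fields `PadicAlgCl l`.
-/

noncomputable section

namespace BKGlob

open BKGen BKGen.Genus NumberField Pool.Agent.Lib.MP_7c08ba_nt Matrix

section Den

variable {l : ℕ} [Fact l.Prime]

theorem val_le_one {E : Type} [Field E] [NumberField E] (j : E →+* PadicAlgCl l) {y : E}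
    (h : ‖j y‖ ≤ 1) : (spec j).valuation E y ≤ 1 := by
  by_contra hcon
  push Not at hcon
  have h2 : (spec j).valuation E y⁻¹ < 1 := by
    rw [map_inv₀]
    exact inv_lt_one_of_one_lt₀ hcon
  have h3 := norm_of_val_lt_one j h2
  rw [map_inv₀, norm_inv] at h3
  by_cases hy : y = 0
  · rw [hy, map_zero] at hcon
    exact absurd hcon (not_lt.2 zero_le_one)
  · have h4 : 0 < ‖j y‖ := norm_pos_iff.2 ((map_ne_zero j).2 hy)
    exact absurd h3 (not_lt.2 ((one_le_inv₀ h4).2 h))

/-- denominators prime to the place -/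
theorem exists_den {Ω : Type} [Field Ω] [CharZero Ω] [Algebra.IsAlgebraic ℚ Ω]
    (j : Ω →+* PadicAlgCl l) (x : Ω) (h : ‖j x‖ ≤ 1) :
    ∃ a b : 𝓞 Ω, b ∉ primeOf j ∧ x * (b : Ω) = a := by
  have hint : IsIntegral ℚ x := (Algebra.IsAlgebraic.isAlgebraic x).isIntegral
  have hfd : FiniteDimensional ℚ (IntermediateField.adjoin ℚ {x}) :=
    IntermediateField.adjoin.finiteDimensional hint
  have hnf : NumberField (IntermediateField.adjoin ℚ {x}) := { }
  set E := IntermediateField.adjoin ℚ {x} with hE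
  let y : E := ⟨x, IntermediateField.mem_adjoin_simple_self ℚ x⟩
  let j' : E →+* PadicAlgCl l := j.comp (algebraMap E Ω)
  obtain ⟨n, d, hnd⟩ := IsDedekindDomain.HeightOneSpectrum.exists_primeCompl_mul_eq_of_integer
    (spec j') y (val_le_one j' h)
  have hd : (d : 𝓞 E) ∉ primeOf j' := d.2
  refine ⟨⟨((n : 𝓞 E) : E), (n.2 : IsIntegral ℤ ((n : 𝓞 E) : E)).map
      (algebraMap E Ω).toIntAlgHom⟩,
    ⟨(((d : 𝓞 E) : E) : Ω), ((d : 𝓞 E).2 : IsIntegral ℤ ((d : 𝓞 E) : E)).map
      (algebraMap E Ω).toIntAlgHom⟩, hd, ?_⟩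
  exact congrArg (fun z : E => (z : Ω)) hnd

end Den

section In

variable {l : ℕ} [Fact l.Prime] {F : Type} [Field F] [NumberField F]

theorem inert_of_Inert (j : AlgebraicClosure F →+* PadicAlgCl l) {g : AbsGal F}
    (hg : g ∈ Inert F (AlgebraicClosure F) j) : g ∈ inert F (primeOf j) := by
  intro x
  exact hg x (norm_int_le j x)

theorem Inert_of_inert (j : AlgebraicClosure F →+* PadicAlgCl l) {g : AbsGal F}
    (hg : g ∈ inert F (primeOf j)) : g ∈ Inert F (AlgebraicClosure F) j := by
  have hal : Algebra.IsAlgebraic ℚ (AlgebraicClosure F) :=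
    Algebra.IsAlgebraic.trans ℚ F (AlgebraicClosure F)
  have hg' : ∀ a : AllInt F, ‖j (g (a : AlgebraicClosure F) - a)‖ < 1 := fun a => hg a
  intro x hx
  obtain ⟨a, b, hb, hab⟩ := exists_den j x hx
  have hb1 : ‖j (b : AlgebraicClosure F)‖ = 1 := norm_eq_one_of_not_mem j hb
  have hgb : ‖j (g (b : AlgebraicClosure F))‖ = 1 := by
    have h1 := hg' b
    rw [map_sub] at h1
    have h2 : j (g (b : AlgebraicClosure F)) = (j (g (b : AlgebraicClosure F)) -
      j (b : AlgebraicClosure F)) + j (b : AlgebraicClosure F) := by ring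
    rw [h2, IsUltrametricDist.norm_add_eq_max_of_norm_ne_norm (by rw [hb1]; exact h1.ne), hb1]
    exact max_eq_right h1.le
  have h3 : g x * g (b : AlgebraicClosure F) = g (a : AlgebraicClosure F) := by
    rw [← map_mul, hab]
  have h4 : (g x - x) * g (b : AlgebraicClosure F) =
      (g (a : AlgebraicClosure F) - a) - x * (g (b : AlgebraicClosure F) - b) := by
    rw [sub_mul, h3, ← hab]
    ring
  have h5 : ‖j (g x - x)‖ * 1 = ‖j ((g (a : AlgebraicClosure F) - a) -
      x * (g (b : AlgebraicClosure F) - b))‖ := by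
    rw [← h4, map_mul, norm_mul, hgb]
  rw [mul_one] at h5
  rw [h5, map_sub]
  refine (norm_sub_le_max).trans_lt (max_lt (hg' a) ?_)
  rw [map_mul, norm_mul]
  exact mul_lt_one_of_nonneg_of_lt_one_right hx (norm_nonneg _) (hg' b)

/-- Elements of the inertia group of a prime ideal which is not above `p`. -/
theorem exists_Inert {p : ℕ} [Fact p.Prime] (P : Ideal (AllInt F)) (hP : P.IsPrime)
    (hp : (p : AllInt F) ∉ P) {g : AbsGal F} (hg : g ∈ inert F P) :
    g = 1 ∨ ∃ (l : ℕ) (_ : Fact l.Prime), l ≠ p ∧ ∃ j : AlgebraicClosure F →+* PadicAlgCl l,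
      g ∈ Inert F (AlgebraicClosure F) j := by
  have hal : Algebra.IsAlgebraic ℚ (AlgebraicClosure F) :=
    Algebra.IsAlgebraic.trans ℚ F (AlgebraicClosure F)
  have hint : ∀ x : AlgebraicClosure F, ∃ m : ℤ, m ≠ 0 ∧ IsIntegral ℤ (m • x) := by
    intro x
    have h1 : IsAlgebraic ℤ x :=
      (IsFractionRing.isAlgebraic_iff ℤ ℚ (AlgebraicClosure F)).2 (Algebra.IsAlgebraic.isAlgebraic x)
    exact h1.exists_integral_multiple
  by_cases h0 : ∃ m : ℕ, m ≠ 0 ∧ (m : AllInt F) ∈ P
  · right
    obtain ⟨m, hm, hmP⟩ := h0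
    obtain ⟨l, hl, hlP⟩ : ∃ l : ℕ, l.Prime ∧ (l : AllInt F) ∈ P := by
      have h1 : ∀ k : ℕ, k ≠ 0 → (k : AllInt F) ∈ P → ∃ l : ℕ, l.Prime ∧ (l : AllInt F) ∈ P := by
        intro k
        induction k using Nat.recOnMul with
        | zero => intro h; exact absurd rfl h
        | one => intro _ h; exact absurd (by simpa using h) ((Ideal.ne_top_iff_one P).1 hP.ne_top)
        | prime q hq => intro _ h; exact ⟨q, hq, h⟩
        | mul a b iha ihb =>
          intro hab h
          rw [Nat.cast_mul] at h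
          rcases hP.mem_or_mem h with h | h
          · exact iha (left_ne_zero_of_mul hab) h
          · exact ihb (right_ne_zero_of_mul hab) h
      exact h1 m hm hmP
    have hfl : Fact l.Prime := ⟨hl⟩
    obtain ⟨j, hj⟩ := exists_place (l := l) P hlP
    refine ⟨l, hfl, ?_, j, Inert_of_inert j (by rw [hj]; exact hg)⟩
    rintro rfl
    exact hp hlP
  · left
    ext x
    obtain ⟨m, hm, hmx⟩ := hint x
    let a : AllInt F := ⟨m • x, hmx⟩
    have h1 : g • a - a = 0 := by
      by_contra hne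
      have h2 : P.comap (algebraMap ℤ (AllInt F)) ≠ ⊥ :=
        Ideal.comap_ne_bot_of_integral_mem hne (hg a) (Algebra.IsIntegral.isIntegral _)
      obtain ⟨k, hk, hk0⟩ := Submodule.exists_mem_ne_zero_of_ne_bot h2
      apply h0
      refine ⟨k.natAbs, Int.natAbs_ne_zero.2 hk0, ?_⟩
      have h3 : (k : AllInt F) ∈ P := by
        rw [Ideal.mem_comap] at hk
        simpa using hk
      rcases Int.natAbs_eq k with h4 | h4
      · rw [h4] at h3
        simpa using h3
      · rw [h4] at h3
        simpa using h3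
    have h5 : g (m • x) - m • x = 0 := congrArg (fun z : AllInt F => (z : AlgebraicClosure F)) h1
    have h6 : (m : AlgebraicClosure F) * (g x - x) = 0 := by
      rw [zsmul_eq_mul, map_mul, map_intCast] at h5
      linear_combination h5
    rcases mul_eq_zero.1 h6 with h7 | h7
    · exact absurd (Int.cast_eq_zero.1 h7) hm
    · rw [AlgEquiv.one_apply]
      exact sub_eq_zero.1 h7

end In

end BKGlob
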