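import Pool.Agent.Lib.MP_7c08ba_nt.Glob.BK
import Pool.Agent.Lib.MP_7c08ba_nt.Glob.Trans
import Pool.Agent.Lib.MP_7c08ba_nt.ND.All
import Pool.Agent.Lib.MP_7c08ba_nt.Par.Main

set_option autoImplicit false

/-!
The parity theorem for the Bloch–Kato Selmer group, `p = 2`: from the abstract parity theorem and
the local theorem of Bloch and Kato.
-/

noncomputable section

namespace BKGlob

open TensorProduct Matrix MP_7c08ba.Crys Pool.Agent.Lib.MP_7c08ba_nt NumberField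

section EndRep

variable {D : Type} [Group D] {L : Type} [NormedField L] {n : ℕ}

/-- the representation by endomorphisms -/
def toEnd (s : D →* GL (Fin n) L) : D →* ((Fin n → L) →ₗ[L] (Fin n → L)) where
  toFun g := (s g : Matrix (Fin n) (Fin n) L).mulVecLin
  map_one' := by
    rw [map_one, Units.val_one, Matrix.mulVecLin_one]
    rfl
  map_mul' g h := by
    rw [map_mul, Units.val_mul, Matrix.mulVecLin_mul]
    rfl

theorem toEnd_apply (s : D →* GL (Fin n) L) (g : D) (v : Fin n → L) :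
    toEnd s g v = (s g : Matrix (Fin n) (Fin n) L) *ᵥ v := rfl

variable [TopologicalSpace D] {l : ℕ} [Fact l.Prime] [NormedAlgebra ℚ_[l] L]

/-- the cocycles which become trivial over `B_cris` -/
def Zf (a : D →* GQp l) (s : D →* GL (Fin n) L) : Submodule L (D → Fin n → L) :=
  BKOdd.Z1 s ⊓ ZCris a (toEnd s)

end EndRep

section Triv

variable {l : ℕ} [Fact l.Prime] {F Ω : Type} [Field F] [CharZero F] [Field Ω] [Algebra F Ω]
  [IsAlgClosure F Ω]
variable {L : Type} [NormedField L] [NormedAlgebra ℚ_[l] L] {n : ℕ}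

theorem isTriv_iff (j : Ω →+* PadicAlgCl l) (ρ : (Ω ≃ₐ[F] Ω) →* GL (Fin n) L)
    (x : (Ω ≃ₐ[F] Ω) → Fin n → L) :
    IsTriv galBa j ρ x ↔ (fun d : BKGen.Dec F Ω j => x d) ∈
      ZCris (lift F j) (toEnd (ρ.comp (BKGen.Dec F Ω j).subtype)) := by
  rw [mem_ZCris]
  constructor
  · rintro ⟨b, hb⟩
    exact ⟨b, fun d => hb d _ (lift_spec j d)⟩
  · rintro ⟨b, hb⟩
    refine ⟨b, fun σ t h => ?_⟩
    have h1 : t = lift F j ⟨σ, h.mem_dec⟩ := Cpt.unique (d := ⟨σ, h.mem_dec⟩) h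
    rw [h1]
    exact hb ⟨σ, h.mem_dec⟩

end Triv

section CB

variable {G : Type} [Group G] [TopologicalSpace G] (χ : G →* ℤ_[2]ˣ) {L : Type} [NormedField L]
  [NormedAlgebra ℚ_[2] L]

theorem mem_CB2_iff (z : G → G → L) : z ∈ BKPar.CB2 χ L ↔ z ∈ CC.B2 (BKOdd.chL χ L) := by
  constructor
  · rintro ⟨f, hf, h⟩
    refine ⟨f, hf, fun a b => ?_⟩
    rw [h a b]
    change BKPar.chi χ L a * f b - f (a * b) + f a = f a + BKPar.chi χ L a * f b - f (a * b)
    ring
  · rintro ⟨f, hf, h⟩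
    refine ⟨f, hf, fun a b => ?_⟩
    rw [h a b]
    change f a + BKPar.chi χ L a * f b - f (a * b) = BKPar.chi χ L a * f b - f (a * b) + f a
    ring

end CB

section Local

variable {F : Type} [Field F] [NumberField F] {q : ℕ} {s : F}
variable {L : Type} [NormedField L] [NormedAlgebra ℚ_[2] L] [FiniteDimensional ℚ_[2] L] {n : ℕ}

/-- the cyclotomic character of the decomposition group -/
abbrev cycD (F : Type) [Field F] (ι : AlgebraicClosure F →+* PadicAlgCl 2) :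
    BKPar.D F ι →* ℤ_[2]ˣ := (BKPar.cyc F).comp (BKPar.D F ι).subtype

theorem finrank_H1_le {D : Type} [Group D] [TopologicalSpace D] {σ : D →* GL (Fin n) L}
    (hσ : Continuous σ)
    (hf : FiniteDimensional L (BKOdd.Z1 σ)) (hd : Module.finrank L (BKOdd.Z1 σ) ≤ 2 * n)
    (hinv : ∀ v : Fin n → L, (∀ g, (σ g : Matrix (Fin n) (Fin n) L) *ᵥ v = v) → v = 0) :
    FiniteDimensional L (BKOdd.H1 σ) ∧ Module.finrank L (BKOdd.H1 σ) ≤ n := by
  refine ⟨inferInstance, ?_⟩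
  have h1 : Module.finrank L (BKOdd.H1 σ) +
      Module.finrank L ((BKOdd.B1 σ).submoduleOf (BKOdd.Z1 σ)) = Module.finrank L (BKOdd.Z1 σ) :=
    Submodule.finrank_quotient_add_finrank ((BKOdd.B1 σ).submoduleOf (BKOdd.Z1 σ))
  have h2 : Module.finrank L ((BKOdd.B1 σ).submoduleOf (BKOdd.Z1 σ)) =
      Module.finrank L (BKOdd.B1 σ) :=
    (Submodule.submoduleOfEquivOfLe (BKOdd.B1_le hσ)).finrank_eq
  have h3 : Module.finrank L (BKOdd.B1 σ) = n := by
    have hinj : Function.Injective (BKOdd.cob σ) := by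
      rw [injective_iff_map_eq_zero]
      intro v hv
      apply hinv
      intro g
      have h4 := congrFun hv g
      rw [BKOdd.cob_apply, Pi.zero_apply, sub_eq_zero] at h4
      exact h4
    rw [BKOdd.B1, LinearMap.finrank_range_of_inj hinj, Module.finrank_fin_fun]
  omega

theorem local_two (hq : BKPar.FieldHyp q F s) (ι : AlgebraicClosure F →+* PadicAlgCl 2)
    (σ σ' : BKPar.D F ι →* GL (Fin n) L) (hσ : Continuous σ) (hσ' : Continuous σ')
    (hu : BKPar.ResUni σ) (hu' : BKPar.ResUni σ')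
    (hdual : ∀ g, (σ g : Matrix (Fin n) (Fin n) L)ᵀ * (σ' g : Matrix (Fin n) (Fin n) L) =
      BKOdd.chL (cycD F ι) L g • (1 : Matrix (Fin n) (Fin n) L))
    (hinv : ∀ v : Fin n → L, (∀ g, (σ g : Matrix (Fin n) (Fin n) L) *ᵥ v = v) → v = 0)
    (hinv' : ∀ v : Fin n → L, (∀ g, (σ' g : Matrix (Fin n) (Fin n) L) *ᵥ v = v) → v = 0)
    (z : BKPar.D F ι → BKPar.D F ι → L)
    (hline : ∀ x ∈ BKOdd.Z1 σ, ∀ y ∈ BKOdd.Z1 σ', ∃ a : L,
      BKOdd.cupV σ' x y - a • z ∈ CC.B2 (BKOdd.chL (cycD F ι) L))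
    {Zf : (BKPar.D F ι →* GL (Fin n) L) → Submodule L (BKPar.D F ι → Fin n → L)} {r r' : ℕ}
    (hH : BKOdd.HodgePair (BKOdd.chL (cycD F ι) L) Zf σ σ' r r') :
    Module.finrank L (BKOdd.cls σ (Zf σ)) = r ∧
    Module.finrank L (BKOdd.cls σ' (Zf σ')) = r' ∧ r + r' = n ∧
      ∀ y ∈ BKOdd.Z1 σ', (y ∈ Zf σ' ↔
        ∀ x ∈ Zf σ, BKOdd.cupV σ' x y ∈ CC.B2 (BKOdd.chL (cycD F ι) L)) := by
  have hdual' : ∀ g, (σ' g : Matrix (Fin n) (Fin n) L)ᵀ * (σ g : Matrix (Fin n) (Fin n) L) =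
      BKOdd.chL (cycD F ι) L g • (1 : Matrix (Fin n) (Fin n) L) := by
    intro g
    have h1 := congrArg Matrix.transpose (hdual g)
    rwa [Matrix.transpose_mul, Matrix.transpose_transpose, Matrix.transpose_smul,
      Matrix.transpose_one] at h1
  obtain ⟨h1, h2, h3⟩ := BKND.final q F s hq ι L n σ σ' hσ hσ' hu hu' hdual hinv'
  obtain ⟨h1', h2', h3'⟩ := BKND.final q F s hq ι L n σ' σ hσ' hσ hu' hu hdual' hinv
  obtain ⟨hf, hd⟩ := finrank_H1_le hσ (n := n) h1 h2 hinv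
  obtain ⟨hf', -⟩ := finrank_H1_le hσ' (n := n) h1' h2' hinv'
  refine bk_local hσ' hdual hf hf' hd z hline ?_ ?_ hH
  · intro y hy hxy
    exact h3 y hy fun x hx => (mem_CB2_iff _ _).2 (hxy x hx)
  · intro x hx hxy
    exact h3' x hx fun y hy => (mem_CB2_iff _ _).2 (hxy y hy)

end Local

end BKGlob
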