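import Pool.Agent.Lib.MP_7c08ba_nt.Glob.Final2
import Pool.Agent.Lib.MP_7c08ba_nt.Odd.FinalF

set_option autoImplicit false

/-!
The parity theorem for `H¹_f(F, V)`, for all primes `p`.
-/

noncomputable section

namespace BKGlob

open BKGen MP_7c08ba.Crys Matrix TensorProduct

section Main

variable {p : ℕ} [Fact p.Prime] {F : Type} [Field F] [NumberField F] {L : Type} [NormedField L]
  [NormedAlgebra ℚ_[p] L] {n : ℕ}

/-- Parity at one place, all primes `p`. -/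
theorem parity_every (ζ : AlgebraicClosure F)
    (ι : AlgebraicClosure F →+* PadicAlgCl p) (hO : RigHyp p F ζ ι)
    (c : AlgebraicClosure F ≃+* AlgebraicClosure F) (σ : F ≃+* F) (hcs : BKOdd.ConjHyp c σ)
    [FiniteDimensional ℚ_[p] L] (ρ : BKOdd.GF F →* GL (Fin n) L) (hρ : Continuous ρ)
    (hres : ∀ g ∈ (BKOdd.Kz ζ).fixingSubgroup, ∀ i : ℕ,
      ‖((ρ g : Matrix (Fin n) (Fin n) L).charpoly - (Polynomial.X - 1) ^ n).coeff i‖ < 1)
    (hur : ∀ (l : ℕ) [Fact l.Prime], l ≠ p → ∀ j : AlgebraicClosure F →+* PadicAlgCl l,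
      ∀ σ ∈ Inert F (AlgebraicClosure F) j, ρ σ = 1)
    (Bu : GL (Fin n) L) (hB : Bu.val.transpose = Bu.val)
    (hpol : ∀ g, (ρ g : Matrix (Fin n) (Fin n) L).transpose * Bu.val *
      (ρ (BKOdd.conj c σ hcs.h g) : Matrix (Fin n) (Fin n) L) =
        BKOdd.chL (BKOdd.cyc p F) L g • Bu.val)
    (hDR : BKOdd.DeRhamAt ι ρ)
    (hFr : BKOdd.FrobAt (BKOdd.Kz ζ).fixingSubgroup ι ρ)
    (hFr' : BKOdd.FrobAt (BKOdd.Kz ζ).fixingSubgroup
      (ι.comp (c : AlgebraicClosure F →+* AlgebraicClosure F)) ρ) :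
    FiniteDimensional L (BKOdd.H1f p ρ) ∧
      Module.finrank L (BKOdd.H1f p ρ) % 2 = BKOdd.tdim ι ρ % 2 ∧
      Module.finrank L (BKOdd.H1f p ρ) ≤ BKOdd.tdim ι ρ ∧
      BKOdd.tdim ι ρ + BKOdd.tdim (ι.comp (c : AlgebraicClosure F →+* AlgebraicClosure F)) ρ =
        n := by
  rcases eq_or_ne p 2 with rfl | hp
  · exact parity_at_two ζ ι hO c σ hcs ρ hρ hres hur Bu hB hpol hDR hFr hFr'
  · exact BKOdd.parity_at ζ ι ⟨hp, hO.hF, hO.hreal, hO.hζ, hO.hsplit, hO.hrig⟩ c σ hcs ρ hρ hres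
      hur Bu hB hpol hDR hFr hFr'

end Main

end BKGlob
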